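import Pool.Agent.Lib.MP_9a7843_ag_T.TwoA
import Pool.Agent.Lib.MP_9a7843_ag_D.Mult

/-!
# MP_9a7843_ag, block T, module Moves: three charts are enough up to two prime divisors
-/

noncomputable section

open MvPolynomial Classical

namespace MP9a7843

variable {k : Type*} [Field k] [CharZero k] {K : Type*} [Field K] [Algebra k K] {z : Idx → K}
  {u v : Fin 10 → K} {a0 : K} {i j : Fin 10} {A : ValuationSubring K}

omit [Algebra k K] [CharZero k] in
/-- A Pluecker coordinate from those with the first index `i`. -/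
private theorem plu_div (hu : u i ≠ 0) (d e : Fin 10) (P : K) :
    plu u v d e / P = u d / u i * (plu u v i e / P) - u e / u i * (plu u v i d / P) := by
  have h1 : plu u v d e * u i = u d * plu u v i e - u e * plu u v i d := by
    unfold plu
    ring
  have h2 : plu u v d e = (u d * plu u v i e - u e * plu u v i d) / u i := by
    rw [← h1, mul_div_cancel_right₀ _ hu]
  rw [h2]
  ring

private theorem val_inv_mem {x : K} (hx : A.valuation x = 1) : x⁻¹ ∈ A := by
  rw [← A.valuation_le_one_iff, map_inv₀, hx, inv_one]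

private theorem val_mul_lt' {x y : K} (hx : x ∈ A) (hy : A.valuation y < 1) :
    A.valuation (x * y) < 1 := by
  rw [map_mul, mul_comm]
  exact mul_lt_one_of_lt_of_le hy ((A.valuation_le_one_iff _).2 hx)

/-- Step 1a: if `u_0 / u_i` is a unit then there is a chart with pivot `0`.

Proof.  Let `U_l = u_l / u_i`, `p_l = P_il / P_ij` (all in `A`, `TCh.u_mem`, `TCh.plu_mem`).
`P_0i / P_ij = -p_0`, `P_0j / P_ij = U_0 - U_j p_0`.  If `p_0` is a unit, use the chart `(0; i)`;
otherwise `U_0 - U_j p_0` is a unit (and `j ≠ 0`), use the chart `(0; j)`.  If `i = 0` there is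
nothing
to do. (`TCh.trans`; `u_0`, `P_0i`, `P_0j` are not zero.) -/
theorem moves_pivot (h : IsGenT k z u v a0) (hA : IsDVRof k A) (hij : i ≠ j)
    (ht : TCh k u v a0 A i j) (hu : A.valuation (u 0 / u i) = 1) :
    ∃ j' : Fin 10, j' ≠ 0 ∧ TCh k u v a0 A 0 j' := by
  by_cases hi : i = 0
  · subst hi
    exact ⟨j, hij.symm, ht⟩
  have hu0 : u 0 ≠ 0 := h.u_ne 0
  have hpm := TCh.plu_mem hA ht i 0
  rcases lt_or_eq_of_le ((A.valuation_le_one_iff _).2 hpm) with h1 | h1
  · have hj0 : j ≠ 0 := by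
      intro hj
      rw [hj, div_self (h.plu_ne hi), map_one] at h1
      exact lt_irrefl _ h1
    refine ⟨j, hj0, TCh.trans hA ht hu0 (h.plu_ne hj0.symm) (val_inv_mem hu) (val_inv_mem ?_)⟩
    rw [plu_div ht.1 0 j, div_self ht.2.1, mul_one]
    have h2 := val_mul_lt' (TCh.u_mem hA ht j) h1
    rw [Valuation.map_sub_eq_of_lt_left _ (by rw [hu]; exact h2), hu]
  · refine ⟨i, hi, TCh.trans hA ht hu0 (h.plu_ne (Ne.symm hi)) (val_inv_mem hu)
      (val_inv_mem ?_)⟩
    have h2 : plu u v 0 i / plu u v i j = -(plu u v i 0 / plu u v i j) := by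
      unfold plu
      ring
    rw [h2, Valuation.map_neg, h1]

/-- Step 1b: if `u_0 / u_i` is in the maximal ideal then the chart `(1; 0)` can be used.

Proof.  `i ≠ 0`, and `u_0 / u_i` is a variable of the chart, so the other variables are units
(`val_var`, `indep_chart`, `gen_chart`): `U_1` (if `i ≠ 1`; otherwise `U_1 = 1`) and `p_0` (if `j ≠
0`;
otherwise `p_0 = 1`).  `P_10 / P_ij = U_1 p_0 - U_0 p_1` is a unit. -/
theorem moves_zero (h : IsGenT k z u v a0) (hA : IsDVRof k A) (hij : i ≠ j)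
    (ht : TCh k u v a0 A i j) (hu : A.valuation (u 0 / u i) < 1) :
    TCh k u v a0 A 1 0 ∧ A.valuation (u 0 / u 1) < 1 := by
  have hx := h.indep_chart hij
  have hg := h.gen_chart hij
  have hi : (0 : Fin 10) ≠ i := by
    intro hi
    rw [← hi, div_self (h.u_ne 0), map_one] at hu
    exact lt_irrefl _ hu
  have hu' : A.valuation (tCoord u v a0 i j (Sum.inl ⟨0, hi⟩)) < 1 := hu
  have hU1 : A.valuation (u 1 / u i) = 1 := by
    by_cases h1 : (1 : Fin 10) = i
    · rw [← h1, div_self (h.u_ne 1), map_one]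
    · have h2 := val_var hx hg hA ht.2.2 (s := Sum.inl ⟨0, hi⟩) (t := Sum.inl ⟨1, h1⟩)
        (by simp) hu'
      exact h2
  have hp0 : A.valuation (plu u v i 0 / plu u v i j) = 1 := by
    by_cases h1 : (0 : Fin 10) = j
    · rw [← h1, div_self (h.plu_ne (Ne.symm hi)), map_one]
    · have h2 := val_var hx hg hA ht.2.2 (s := Sum.inl ⟨0, hi⟩)
        (t := Sum.inr (Sum.inl ⟨0, hi, h1⟩)) (by simp) hu'
      exact h2
  have h3 : A.valuation (plu u v 1 0 / plu u v i j) = 1 := by
    rw [plu_div ht.1 1 0]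
    have h4 : A.valuation (u 1 / u i * (plu u v i 0 / plu u v i j)) = 1 := by
      rw [map_mul, hU1, hp0, one_mul]
    have h5 : A.valuation (u 0 / u i * (plu u v i 1 / plu u v i j)) < 1 := by
      rw [mul_comm]
      exact val_mul_lt' (TCh.plu_mem hA ht i 1) hu
    rw [Valuation.map_sub_eq_of_lt_left _ (by rw [h4]; exact h5), h4]
  refine ⟨TCh.trans hA ht (h.u_ne 1) (h.plu_ne (by decide)) (val_inv_mem hU1)
    (val_inv_mem h3), ?_⟩
  have h6 : u 0 / u 1 = (u 0 / u i) / (u 1 / u i) := by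
    rw [div_div_div_cancel_right₀ ht.1]
  rw [h6, map_div₀, hU1, div_one]
  exact hu

/-- Step 2: charts with pivot `0`.

Proof.  If `j ≠ 1`, `p_1 = P_01 / P_0j` is a variable of the chart `(0; j)`.  If it is a unit, use
the
chart `(0; 1)`.  Otherwise, if `j ≠ 2`, `p_2 = P_02 / P_0j` is a unit (`val_var`), use the chart
`(0; 2)`. -/
theorem moves_row (h : IsGenT k z u v a0) (hA : IsDVRof k A) (hj : j ≠ 0)
    (ht : TCh k u v a0 A 0 j) : TCh k u v a0 A 0 1 ∨
      (TCh k u v a0 A 0 2 ∧ A.valuation (plu u v 0 1 / plu u v 0 2) < 1) := by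
  by_cases hj1 : (1 : Fin 10) = j
  · left
    rw [hj1]
    exact ht
  have hx := h.indep_chart (Ne.symm hj)
  have hg := h.gen_chart (Ne.symm hj)
  have h10 : (1 : Fin 10) ≠ 0 := by decide
  have h20 : (2 : Fin 10) ≠ 0 := by decide
  have hun : (u 0 / u 0)⁻¹ ∈ A := by
    rw [div_self (h.u_ne 0), inv_one]
    exact A.one_mem
  rcases lt_or_eq_of_le ((A.valuation_le_one_iff _).2 (TCh.plu_mem hA ht 0 1)) with h1 | h1
  · right
    by_cases hj2 : (2 : Fin 10) = j
    · rw [hj2]
      exact ⟨ht, h1⟩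
    · have h1' : A.valuation (tCoord u v a0 0 j (Sum.inr (Sum.inl ⟨1, h10, hj1⟩))) < 1 := h1
      have h2 : A.valuation (plu u v 0 2 / plu u v 0 j) = 1 :=
        val_var hx hg hA ht.2.2 (s := Sum.inr (Sum.inl ⟨1, h10, hj1⟩))
          (t := Sum.inr (Sum.inl ⟨2, h20, hj2⟩)) (by simp) h1'
      refine ⟨TCh.trans hA ht (h.u_ne 0) (h.plu_ne (Ne.symm h20)) hun (val_inv_mem h2), ?_⟩
      have h3 : plu u v 0 1 / plu u v 0 2 =
          (plu u v 0 1 / plu u v 0 j) / (plu u v 0 2 / plu u v 0 j) := by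
        rw [div_div_div_cancel_right₀ ht.2.1]
      rw [h3, map_div₀, h2, div_one]
      exact h1
  · left
    exact TCh.trans hA ht (h.u_ne 0) (h.plu_ne (Ne.symm h10)) hun (val_inv_mem h1)

/-- T3 (moves). -/
theorem movesT (h : IsGenT k z u v a0) (hA : A ∈ VSet k z) : TCh k u v a0 A 0 1 ∨
    (TCh k u v a0 A 0 2 ∧ A.valuation (plu u v 0 1 / plu u v 0 2) < 1) ∨
    (TCh k u v a0 A 1 0 ∧ A.valuation (u 0 / u 1) < 1) := by
  obtain ⟨i, j, hij, ht⟩ := exists_tch h hA
  have hD : IsDVRof k A := hA.1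
  rcases lt_or_eq_of_le ((A.valuation_le_one_iff _).2 (TCh.u_mem hD ht 0)) with h1 | h1
  · exact Or.inr (Or.inr (moves_zero h hD hij ht h1))
  · obtain ⟨j', hj', ht'⟩ := moves_pivot h hD hij ht h1
    rcases moves_row h hD hj' ht' with h2 | h2
    · exact Or.inl h2
    · exact Or.inr (Or.inl h2)

end MP9a7843
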