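import Pool.Agent.Lib.MP_9a7843_ag_T.Gen
import Pool.Agent.Lib.MP_9a7843_ag_D.Mult

/-!
# MP_9a7843_ag, block T, module OrdB: orders at the two prime divisors `D_P`, `D_u`
-/

noncomputable section

open MvPolynomial Classical

namespace MP9a7843

variable {k : Type*} [Field k] [CharZero k] {K : Type*} [Field K] [Algebra k K] {z : Idx → K}
  {u v : Fin 10 → K} {a0 : K} {i j : Fin 10} {A B : ValuationSubring K}

omit [CharZero k] in
private theorem ob_not_dvd {σ : Type*} {s : σ} {Q : MvPolynomial σ k} (f : σ → k) (hf : f s = 0)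
    (hQ : MvPolynomial.eval f Q ≠ 0) : ¬ (X s : MvPolynomial σ k) ∣ Q := by
  rintro ⟨R, rfl⟩
  apply hQ
  rw [map_mul, eval_X, hf, zero_mul]

/-- The variable `P_01 / P_02` of the chart `(0; 2)`. -/
private def ob_sP : TVar (0 : Fin 10) 2 := Sum.inr (Sum.inl ⟨1, by decide, by decide⟩)

/-- The variable `u_0 / u_1` of the chart `(1; 0)`. -/
private def ob_sU : TVar (1 : Fin 10) 0 := Sum.inl ⟨0, by decide⟩

private theorem ob_tP : tCoord u v a0 0 2 ob_sP = plu u v 0 1 / plu u v 0 2 := rfl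

private theorem ob_tU : tCoord u v a0 1 0 ob_sU = u 0 / u 1 := rfl

private theorem ob_locP (h : IsGenT k z u v a0) (hA : IsDVRof k A) (ht : TCh k u v a0 A 0 2)
    (hv : A.valuation (plu u v 0 1 / plu u v 0 2) < 1) :
    IsLocAt (tCoord u v a0 0 2) (X ob_sP : MvPolynomial _ k) A :=
  isLocAt_X (h.indep_chart (by decide)) (h.gen_chart (by decide)) hA ht.2.2 hv

private theorem ob_locU (h : IsGenT k z u v a0) (hA : IsDVRof k A) (ht : TCh k u v a0 A 1 0)
    (hv : A.valuation (u 0 / u 1) < 1) :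
    IsLocAt (tCoord u v a0 1 0) (X ob_sU : MvPolynomial _ k) A :=
  isLocAt_X (h.indep_chart (by decide)) (h.gen_chart (by decide)) hA ht.2.2 hv

omit [CharZero k] in
private theorem ob_cubP : cub (uT k 0 2) (vT k 0 2) ![aT k 0 2, 0, 1, 0] 0 0 0 =
    aT k 0 2 + 3 * bT k 0 2 ^ 2 := by
  have h1 : uT k 0 2 0 = 1 := by
    unfold uT
    rw [dif_neg (by simp)]
  have h2 : pT k 0 2 0 = 0 := by
    unfold pT
    rw [dif_neg (by simp), if_neg (by decide)]
  have h3 : vT k 0 2 0 = bT k 0 2 := by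
    unfold vT
    rw [h1, h2, mul_one, add_zero]
  unfold cub
  rw [h1, h3]
  simp only [Matrix.cons_val]
  ring

omit [CharZero k] in
private theorem ob_cubU : cub (uT k 1 0) (vT k 1 0) ![aT k 1 0, 0, 1, 0] 0 0 0 =
    X ob_sU ^ 1 * (aT k 1 0 * X ob_sU ^ 2 + 3 * (bT k 1 0 * X ob_sU + 1) ^ 2) := by
  have h1 : uT k 1 0 0 = X ob_sU := by
    unfold uT
    rw [dif_pos (by decide)]
    rfl
  have h2 : pT k 1 0 0 = 1 := by
    unfold pT
    rw [dif_neg (by simp), if_pos rfl]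
  have h3 : vT k 1 0 0 = bT k 1 0 * X ob_sU + 1 := by
    unfold vT
    rw [h1, h2]
  unfold cub
  rw [h1, h3]
  simp only [Matrix.cons_val]
  ring

omit [CharZero k] in
private theorem ob_ndP : ¬ (X ob_sP : MvPolynomial (TVar 0 2) k) ∣
    aT k 0 2 + 3 * bT k 0 2 ^ 2 := by
  refine ob_not_dvd (Sum.elim (fun _ => 0) (Sum.elim (fun _ => 0) ![0, 1])) rfl ?_
  unfold aT bT
  rw [map_add, map_mul, map_pow, eval_X, eval_X]
  simp

private theorem ob_ndU : ¬ (X ob_sU : MvPolynomial (TVar 1 0) k) ∣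
    (aT k 1 0 * X ob_sU ^ 2 + 3 * (bT k 1 0 * X ob_sU + 1) ^ 2) := by
  refine ob_not_dvd (fun _ => 0) rfl ?_
  unfold aT bT
  simp only [map_add, map_mul, map_pow, eval_X, map_one, map_ofNat]
  norm_num

/-- The divisor `D_P`.

Proof.  `P_01 / P_02` is a variable of the chart `(0; 2)` in the maximal ideal, of order `1`
(`ord_var`).  `ψ u_0 / P_02^2` is the value of `psT k 0 2`, which is not divisible by the variable,
so
it is a unit (`isLocAt_X`, `IsLocAt.val_eq_one`).  `u_0 = 1`, `P_02 = (P_01 / P_02)⁻¹`. -/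
theorem ord_divP (h : IsGenT k z u v a0) (hA : IsDVRof k A) (ht : TCh k u v a0 A 0 2)
    (hv : A.valuation (plu u v 0 1 / plu u v 0 2) < 1) :
    ord A (cub u v ![a0, 0, 1, 0] 0 0 0 * u 0 / plu u v 0 2 ^ 2) = 0 ∧
      ord A (plu u v 0 1 / plu u v 0 2) = 1 ∧ ord A (cub u v ![a0, 0, 1, 0] 0 0 0) = -2 := by
  have hx := h.indep_chart (i := 0) (j := 2) (by decide)
  have hg := h.gen_chart (i := 0) (j := 2) (by decide)
  have hL := ob_locP h hA ht hv
  have hX : Irreducible (X ob_sP : MvPolynomial (TVar 0 2) k) := X_prime.irreducible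
  have hc0 := h.cub_ne 0 0 0
  have h02 : plu u v 0 2 ≠ 0 := ht.2.1
  have h1 : ord A (cub u v ![a0, 0, 1, 0] 0 0 0 * u 0 / plu u v 0 2 ^ 2) = 0 := by
    rw [← aeval_cubT (k := k) ht.1 ht.2.1, ob_cubP]
    exact hA.ord_eq_of_val (hL.val_eq_one hx hX ob_ndP)
  have h2 : ord A (plu u v 0 1 / plu u v 0 2) = 1 := ord_var hx hg hA ht.2.2 (s := ob_sP) hv
  refine ⟨h1, h2, ?_⟩
  rw [h.u0, mul_one, hA.ord_div hc0 (pow_ne_zero 2 h02), hA.ord_pow] at h1
  rw [h.p01, one_div, hA.ord_inv] at h2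
  push_cast at h1
  linarith

/-- The divisor `D_u`.

Proof.  `β = u_0 / u_1` is a variable of the chart `(1; 0)` in the maximal ideal, of order `1`.
`ψ u_1 / P_10^2` is the value of `gT k 1 0 3 = β (ψ' β^2 + 6 b β + 3)` (`aeval_cubT`), of order `1`.
`P_10 = -1`, `u_1 = (u_0 / u_1)⁻¹`. -/
theorem ord_divU (h : IsGenT k z u v a0) (hA : IsDVRof k A) (ht : TCh k u v a0 A 1 0)
    (hv : A.valuation (u 0 / u 1) < 1) :
    ord A (cub u v ![a0, 0, 1, 0] 0 0 0 * u 1 / plu u v 1 0 ^ 2) = 1 ∧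
      ord A (plu u v 0 1 / plu u v 1 0) = 0 ∧ ord A (cub u v ![a0, 0, 1, 0] 0 0 0) = 2 := by
  have hx := h.indep_chart (i := 1) (j := 0) (by decide)
  have hg := h.gen_chart (i := 1) (j := 0) (by decide)
  have hL := ob_locU h hA ht hv
  have hX : Irreducible (X ob_sU : MvPolynomial (TVar 1 0) k) := X_prime.irreducible
  have hc0 := h.cub_ne 0 0 0
  have hP : plu u v 1 0 = -1 := by
    rw [← h.p01]
    unfold plu
    ring
  have h1 : ord A (cub u v ![a0, 0, 1, 0] 0 0 0 * u 1 / plu u v 1 0 ^ 2) = 1 := by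
    rw [← aeval_cubT (k := k) ht.1 ht.2.1, ob_cubU]
    exact hL.ord_eq hx hX 1 ob_ndU
  have h2 : ord A (u 0 / u 1) = 1 := ord_var hx hg hA ht.2.2 (s := ob_sU) hv
  refine ⟨h1, ?_, ?_⟩
  · rw [hP, h.p01, one_div, hA.ord_inv, hA.ord_neg, hA.ord_one, neg_zero]
  · rw [hP, neg_one_sq, div_one, hA.ord_mul hc0 ht.1] at h1
    rw [h.u0, one_div, hA.ord_inv] at h2
    linarith

/-- `isLocAt_X`, `IsLocAt.unique`. -/
theorem unique_divP (h : IsGenT k z u v a0) (hA : IsDVRof k A) (ht : TCh k u v a0 A 0 2)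
    (hv : A.valuation (plu u v 0 1 / plu u v 0 2) < 1) (hB : IsDVRof k B)
    (ht' : TCh k u v a0 B 0 2) (hv' : B.valuation (plu u v 0 1 / plu u v 0 2) < 1) : A = B :=
  (ob_locP h hA ht hv).unique (ob_locP h hB ht' hv')

/-- `isLocAt_X`, `IsLocAt.unique`. -/
theorem unique_divU (h : IsGenT k z u v a0) (hA : IsDVRof k A) (ht : TCh k u v a0 A 1 0)
    (hv : A.valuation (u 0 / u 1) < 1) (hB : IsDVRof k B)
    (ht' : TCh k u v a0 B 1 0) (hv' : B.valuation (u 0 / u 1) < 1) : A = B :=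
  (ob_locU h hA ht hv).unique (ob_locU h hB ht' hv')

end MP9a7843
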