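import Pool.Agent.Lib.MP_9a7843_ag_T.OrdA
import Pool.Agent.Lib.MP_9a7843_ag_T.OrdB
import Pool.Agent.Lib.MP_9a7843_ag_T.Moves
import Pool.Agent.Lib.MP_9a7843_ag_A.Exports

/-!
# MP_9a7843_ag, block T, module Class: the class lemma for the function field of `T`
-/

noncomputable section

open MvPolynomial Classical

namespace MP9a7843

universe u

variable {k : Type u} [Field k] [CharZero k] {L : Type u} [Field L] [Algebra k L] {z : Idx → L}
  {u v : Fin 10 → L} {a0 : L}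

/-- Realization of `n` on the chart `(0; 1)`: `exists_ord_eq`; the support of `n` among the discrete
valuation rings that are etale over the chart (they are in `VSet`, `mem_vSet_of_tch`) is contained
in
the union over `φ ∈ Φ` of the finite sets of `finite_ord_ne`. -/
theorem class_main (h : IsGenT k z u v a0) (n : ValuationSubring L → ℤ) (Φ : Finset L)
    (hΦ : ∀ φ ∈ Φ, φ ≠ 0) (hn : ∀ A ∈ VSet k z, ∃ φ ∈ Φ, n A = ord A φ) :
    ∃ φ : L, φ ≠ 0 ∧ ∀ A : ValuationSubring L, IsDVRof k A → TCh k u v a0 A 0 1 →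
      n A = ord A φ := by
  have h01 : (0 : Fin 10) ≠ 1 := by decide
  have hx := h.indep_chart h01
  have hg := h.gen_chart h01
  obtain ⟨φ, hφ, hφ'⟩ := exists_ord_eq hx hg n (by
    refine Set.Finite.subset (Φ.finite_toSet.biUnion
      (t := fun φ => {A : ValuationSubring L | IsDVRof k A ∧
        EtaleAt k A (tCoord u v a0 0 1) ∧ ord A φ ≠ 0})
      fun φ hφ => finite_ord_ne hx hg (hΦ φ hφ)) ?_
    rintro A ⟨hA, he, hne⟩
    obtain ⟨φ, hφ, hφn⟩ := hn A (mem_vSet_of_tch h hA h01 ⟨h.u_ne 0, h.plu_ne h01, he⟩)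
    exact Set.mem_biUnion hφ ⟨hA, he, by rw [← hφn]; exact hne⟩)
  exact ⟨φ, hφ, fun A hA ht => hφ' A hA ht.2.2⟩

/-- Correction at the divisors `D_u` and `D_P` (`unique_divU`, `unique_divP`; `a`, `b` are
arbitrary if there is no such `A`). -/
theorem class_corr (h : IsGenT k z u v a0) (n : ValuationSubring L → ℤ) (φ : L) :
    ∃ a b : ℤ, (∀ A : ValuationSubring L, IsDVRof k A → TCh k u v a0 A 1 0 →
        A.valuation (u 0 / u 1) < 1 → n A = -a + ord A φ) ∧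
      ∀ A : ValuationSubring L, IsDVRof k A → TCh k u v a0 A 0 2 →
        A.valuation (plu u v 0 1 / plu u v 0 2) < 1 → n A = b + ord A φ + 2 * a := by
  obtain ⟨a, ha⟩ : ∃ a : ℤ, ∀ A : ValuationSubring L, IsDVRof k A → TCh k u v a0 A 1 0 →
      A.valuation (u 0 / u 1) < 1 → n A = -a + ord A φ := by
    by_cases hex : ∃ A : ValuationSubring L, IsDVRof k A ∧ TCh k u v a0 A 1 0 ∧
        A.valuation (u 0 / u 1) < 1
    · obtain ⟨B, hB, hB1, hB2⟩ := hex
      refine ⟨ord B φ - n B, fun A hA h1 h2 => ?_⟩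
      rw [unique_divU h hA h1 h2 hB hB1 hB2]
      ring
    · exact ⟨0, fun A hA h1 h2 => absurd ⟨A, hA, h1, h2⟩ hex⟩
  obtain ⟨b, hb⟩ : ∃ b : ℤ, ∀ A : ValuationSubring L, IsDVRof k A → TCh k u v a0 A 0 2 →
      A.valuation (plu u v 0 1 / plu u v 0 2) < 1 → n A = b + ord A φ + 2 * a := by
    by_cases hex : ∃ A : ValuationSubring L, IsDVRof k A ∧ TCh k u v a0 A 0 2 ∧
        A.valuation (plu u v 0 1 / plu u v 0 2) < 1
    · obtain ⟨B, hB, hB1, hB2⟩ := hex
      refine ⟨n B - ord B φ - 2 * a, fun A hA h1 h2 => ?_⟩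
      rw [unique_divP h hA h1 h2 hB hB1 hB2]
      ring
    · exact ⟨0, fun A hA h1 h2 => absurd ⟨A, hA, h1, h2⟩ hex⟩
  exact ⟨a, b, ha, hb⟩

/-- T5.  Let `ψ = F_000` (`cub_ne`), `φ0` from `class_main`, `a, b` from `class_corr`,
`φ = φ0 ψ^(-a)`.  By `movesT` there are three cases; in each of them `ord_cub` and `ord_plu`
compute the
orders of `ξ` and `H`: `(ord ψ, 0)` in the chart `(0; 1)` (`u_0 = 1`, `P_01 = 1`), `(0, 1)` with
`ord ψ = -2` at `D_P`, `(1, 0)` with `ord ψ = 2` at `D_u` (`ord_divP`, `ord_divU`). -/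
theorem classT (h : IsGenT k z u v a0) : ClassLemma k z := by
  intro n Φ hΦ hn
  obtain ⟨φ0, hφ0, hmain⟩ := class_main h n Φ hΦ hn
  obtain ⟨a, b, ha, hb⟩ := class_corr h n φ0
  have hψ : cub u v ![a0, 0, 1, 0] 0 0 0 ≠ 0 := h.cub_ne 0 0 0
  refine ⟨a, b, φ0 * cub u v ![a0, 0, 1, 0] 0 0 0 ^ (-a), mul_ne_zero hφ0 (zpow_ne_zero _ hψ), ?_⟩
  intro A hAV i j m _ hc hm
  have hA : IsDVRof k A := hAV.1
  rw [hA.ord_mul hφ0 (zpow_ne_zero _ hψ), hA.ord_zpow]
  rcases movesT h hAV with ht | ⟨ht, hv⟩ | ⟨ht, hv⟩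
  · have h01 : (0 : Fin 10) ≠ 1 := by decide
    rw [ord_cub h hA h01 ht hc hm, ord_plu h hA h01 ht hc hm, h.u0, h.p01, mul_one, one_pow,
      div_one, div_one, hA.ord_one, hmain A hA ht]
    ring
  · have h02 : (0 : Fin 10) ≠ 2 := by decide
    obtain ⟨h1, h2, h3⟩ := ord_divP h hA ht hv
    rw [ord_cub h hA h02 ht hc hm, ord_plu h hA h02 ht hc hm, h1, h2, h3, hb A hA ht hv]
    ring
  · have h10 : (1 : Fin 10) ≠ 0 := by decide
    obtain ⟨h1, h2, h3⟩ := ord_divU h hA ht hv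
    rw [ord_cub h hA h10 ht hc hm, ord_plu h hA h10 ht hc hm, h1, h2, h3, ha A hA ht hv]
    ring

end MP9a7843
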