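import Mathlib

/-!
# MP_9a7843_ag, block T, module Ends: extensions of degree at most `3`
-/

noncomputable section

open Classical

namespace MP9a7843

/-- An intermediate field of an extension of degree `≤ 3` is one of the ends (tower law,
`IntermediateField.relfinrank_mul_relfinrank` or `Module.finrank_mul_finrank` with
`IntermediateField.extendScalars`; a factor `1` means equality, two factors `≥ 2` would give a
degree
`≥ 4`). -/
theorem ends_of_finrank {k : Type*} [Field k] {K : Type*} [Field K] [Algebra k K]
    (F E : IntermediateField k K) (hFE : F ≤ E) (hfin : FiniteDimensional F K)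
    (h3 : Module.finrank F K ≤ 3) : E = F ∨ E = ⊤ := by
  have h1 : Module.finrank F (IntermediateField.extendScalars hFE) *
      Module.finrank (IntermediateField.extendScalars hFE) K = Module.finrank F K :=
    Module.finrank_mul_finrank F (IntermediateField.extendScalars hFE) K
  have h2 : 0 < Module.finrank F K := Module.finrank_pos
  obtain ⟨a, ha⟩ : ∃ a, a = Module.finrank F (IntermediateField.extendScalars hFE) := ⟨_, rfl⟩
  obtain ⟨b, hb⟩ : ∃ b, b = Module.finrank (IntermediateField.extendScalars hFE) K := ⟨_, rfl⟩
  rw [← ha, ← hb] at h1
  have h4 : a = 1 ∨ b = 1 := by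
    by_contra hcon
    rw [not_or] at hcon
    have ha0 : a ≠ 0 := fun h => by rw [h] at h1; omega
    have hb0 : b ≠ 0 := fun h => by rw [h] at h1; omega
    have ha2 : 2 ≤ a := by omega
    have hb2 : 2 ≤ b := by omega
    nlinarith
  rcases h4 with h4 | h4
  · left
    rw [ha, IntermediateField.finrank_eq_one_iff] at h4
    have h5 := congrArg (IntermediateField.restrictScalars k) h4
    rw [IntermediateField.extendScalars_restrictScalars] at h5
    rw [h5]
    have h6 := congrArg (IntermediateField.restrictScalars k)
      (IntermediateField.extendScalars_self F)
    rw [IntermediateField.extendScalars_restrictScalars] at h6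
    exact h6.symm
  · right
    rw [hb, IntermediateField.finrank_eq_one_iff_eq_top] at h4
    have h5 := congrArg (IntermediateField.restrictScalars k) h4
    rw [IntermediateField.extendScalars_restrictScalars] at h5
    rw [h5, IntermediateField.restrictScalars_top]

end MP9a7843
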