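import Pool.Agent.Lib.MP_9a7843_ag_T.Chart
import Pool.Agent.Lib.MP_9a7843_ag_A.Exports

/-!
# MP_9a7843_ag, block T, module GenTT: the function field of `T`
-/

noncomputable section

open MvPolynomial Classical

namespace MP9a7843

universe u

variable (k : Type u) [Field k]

private theorem tt_u0 : tU k 0 = 1 := by
  rw [tU, dif_neg (not_not.2 rfl)]

private theorem tt_p0 : tP k 0 = 0 := by
  rw [tP, dif_neg (fun h => h.1 rfl), if_neg zero_ne_one]

private theorem tt_p1 : tP k 1 = 1 := by
  rw [tP, dif_neg (fun h => h.2 rfl), if_pos rfl]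

private theorem tt_v0 : tV k 0 = tB k := by
  rw [tV, tt_u0, tt_p0, mul_one, add_zero]

private theorem tt_plu (l : Fin 10) : plu (tU k) (tV k) 0 l = tP k l := by
  rw [plu, tt_u0, tt_v0, tV]
  ring

private theorem tt_p01 : plu (tU k) (tV k) 0 1 = 1 := by
  rw [tt_plu, tt_p1]

/-- The coordinates of the chart `(0; 1)` of the generic point are the variables. -/
theorem tCoord_T : tCoord (tU k) (tV k) (tA k) 0 1 = tv k := by
  funext s
  rcases s with s | s | s
  · change tU k s.1 / tU k 0 = tv k (Sum.inl s)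
    rw [tt_u0, div_one, tU, dif_pos s.2]
  · change plu (tU k) (tV k) 0 s.1 / plu (tU k) (tV k) 0 1 = tv k (Sum.inr (Sum.inl s))
    rw [tt_p01, div_one, tt_plu, tP, dif_pos s.2]
  · match s with
    | 0 =>
      change tV k 0 * tU k 0 / plu (tU k) (tV k) 0 1 = tv k (Sum.inr (Sum.inr 0))
      rw [tt_p01, tt_u0, tt_v0, mul_one, div_one, tB]
    | 1 =>
      change tA k * tU k 0 ^ 4 / plu (tU k) (tV k) 0 1 ^ 2 = tv k (Sum.inr (Sum.inr 1))
      rw [tt_p01, tt_u0, one_pow, one_pow, mul_one, div_one, tA]

theorem tv_indep : AlgebraicIndependent k (tv k) := by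
  have h := (MvPolynomial.algebraicIndependent_X (TVar 0 1) k).map'
    (f := IsScalarTower.toAlgHom k (MvPolynomial (TVar 0 1) k) (KT k))
    (IsFractionRing.injective (MvPolynomial (TVar 0 1) k) (KT k))
  exact h

theorem tv_gen : IntermediateField.adjoin k (Set.range (tv k)) = ⊤ := by
  rw [eq_top_iff]
  intro a _
  obtain ⟨p, q, -, rfl⟩ := IsFractionRing.div_surjective (A := MvPolynomial (TVar 0 1) k) a
  have hp : ∀ p : MvPolynomial (TVar 0 1) k, algebraMap (MvPolynomial (TVar 0 1) k) (KT k) p ∈
      IntermediateField.adjoin k (Set.range (tv k)) := by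
    intro p
    induction p using MvPolynomial.induction_on with
    | C c =>
      have : algebraMap (MvPolynomial (TVar 0 1) k) (KT k) (C c) = algebraMap k (KT k) c :=
        (IsScalarTower.algebraMap_apply k (MvPolynomial (TVar 0 1) k) (KT k) c).symm
      rw [this]
      exact IntermediateField.algebraMap_mem _ _
    | add p q hp hq =>
      rw [map_add]
      exact add_mem hp hq
    | mul_X p s hp =>
      rw [map_mul]
      exact mul_mem hp (IntermediateField.subset_adjoin k _ ⟨s, rfl⟩)
  exact div_mem (hp p) (hp q)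

theorem isGenT_T : IsGenT k (zT k) (tU k) (tV k) (tA k) where
  u0 := tt_u0 k
  p01 := tt_p01 k
  indep := by
    rw [tCoord_T]
    exact tv_indep k
  gen := by
    rw [tCoord_T]
    exact tv_gen k
  eq := ⟨1, one_ne_zero, fun I => by rw [one_mul, zT]⟩

end MP9a7843
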