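import Pool.Agent.Lib.MP_9a7843_ag_T.CellT
import Pool.Agent.Lib.MP_9a7843_ag_T.GenTT
import Pool.Agent.Lib.MP_9a7843_ag_T.Ends

/-!
# MP_9a7843_ag, block T, module Dich: there are no proper intermediate fields between the function
fields of `X` and `T`
-/

noncomputable section

open MvPolynomial Classical

namespace MP9a7843

universe u

variable {k : Type u} [Field k] {L : Type u} [Field L] [Algebra k L] {z : Idx → L}

/-- Relations are reflected by injective homomorphisms. -/
private theorem rel_of_map {R S : Type*} [CommRing R] [CommRing S] {f : R →+* S}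
    (hf : Function.Injective f) {z : Idx → R} (h : Rel fun I => f (z I)) : Rel z where
  sym1 a b d P := hf (h.sym1 a b d P)
  sym2 a b d P := hf (h.sym2 a b d P)
  alt A d e := hf (by rw [map_neg]; exact h.alt A d e)
  alt0 A d := hf (by rw [map_zero]; exact h.alt0 A d)
  segre A A' P P' := hf (by rw [map_mul, map_mul]; exact h.segre A A' P P')
  inc a b d i j A := hf (by rw [map_add, map_mul, map_mul, map_mul]; exact h.inc a b d i j A)
  plu A A' a b i j := hf (by rw [map_sub, map_mul, map_mul, map_mul]; exact h.plu A A' a b i j)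

/-- An intermediate field generated by elements whose images generate the range is everything. -/
private theorem adjoin_of_map {M : Type*} [Field M] [Algebra k M] {σ : Type*} (e : L →ₐ[k] M)
    (x : σ → L) (h : e.fieldRange ≤ IntermediateField.adjoin k (Set.range fun s => e (x s))) :
    IntermediateField.adjoin k (Set.range x) = ⊤ := by
  rw [eq_top_iff]
  intro a _
  have h1 : e a ∈ IntermediateField.adjoin k (Set.range fun s => e (x s)) := h ⟨a, rfl⟩
  have h2 : (Set.range fun s => e (x s)) = e '' Set.range x := by
    rw [← Set.range_comp]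
    rfl
  rw [h2, ← IntermediateField.adjoin_map] at h1
  obtain ⟨b, hb, hb'⟩ := h1
  have h3 : b = a := e.injective hb'
  rw [← h3]
  exact hb

/-- Relations of `X` and the cell coordinates under an embedding: `Rel z` (`Rel.map` backwards by
injectivity), `i (cellCoord z i j m s) = cellCoord (zT k) i j m s`. -/
theorem emb_cell [CharZero k] {e : L →ₐ[k] KT k} {r : KT k} (hr : r ≠ 0)
    (he : ∀ I, e (z I) = r * zT k I) :
    Rel z ∧ (∀ I, z I ≠ 0 ↔ zT k I ≠ 0) ∧
      ∀ (i j : Fin 10) (m : Fin 4) (s : CellVar i j m),
        e (cellCoord z i j m s) = cellCoord (zT k) i j m s := by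
  refine ⟨?_, ?_, ?_⟩
  · refine rel_of_map (f := e.toRingHom) e.injective ?_
    have h1 : (fun I => e.toRingHom (z I)) = r • zT k := by
      funext I
      exact he I
    rw [h1]
    exact (isGenT_T k).rel.smul r
  · intro I
    rw [← map_ne_zero_iff e e.injective, he I]
    exact ⟨fun h => right_ne_zero_of_mul h, fun h => mul_ne_zero hr h⟩
  · intro i j m s
    rw [cellCoord_eq, cellCoord_eq, map_div₀, he, he, mul_div_mul_left _ _ hr]

/-- If the image of `L` is the field of the cell coordinates then `z` is the generic point of `X`: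
`indep` and `gen` are pulled back by the isomorphism of `L` with its image, `eq` is
`cell_formula`. -/
theorem isGenX_of_range [CharZero k] {e : L →ₐ[k] KT k} {r : KT k} (hr : r ≠ 0)
    (he : ∀ I, e (z I) = r * zT k I)
    (h : e.fieldRange = IntermediateField.adjoin k (Set.range (cellCoord (zT k) 0 1 0))) :
    IsGenX k z := by
  obtain ⟨h1, h2, h3⟩ := emb_cell hr he
  have h01 : (0 : Fin 10) ≠ 1 := by decide
  have hne : z (cellIdx 0 1 0) ≠ 0 := (h2 _).2 ((isGenT_T k).cell_ne h01 0)
  have hc : (fun s => e (cellCoord z 0 1 0 s)) = cellCoord (zT k) 0 1 0 := by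
    funext s
    exact h3 0 1 0 s
  refine ⟨hne, ?_, ?_, fun I => cell_formula h1 hne I⟩
  · refine AlgebraicIndependent.of_comp e ?_
    have h4 := (isGenT_T k).cell_indep h01 0
    rw [← hc] at h4
    exact h4
  · refine adjoin_of_map e _ ?_
    rw [hc, h]

/-- If `L → K_T` is surjective then `L` is the function field of `T`: take the preimages of
`tU`, `tV`, `tA`. -/
theorem isGenT_of_range [CharZero k] {e : L →ₐ[k] KT k} {r : KT k} (hr : r ≠ 0)
    (he : ∀ I, e (z I) = r * zT k I) (h : e.fieldRange = ⊤) :
    ∃ u v a0, IsGenT k z u v a0 := by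
  have hs : ∀ x : KT k, ∃ y : L, e y = x := by
    intro x
    have h1 : x ∈ e.fieldRange := by rw [h]; exact IntermediateField.mem_top
    exact h1
  choose g hg using hs
  have hT := isGenT_T k
  have hinj : ∀ a b : L, e a = e b → a = b := fun a b hab => e.injective hab
  have hc : (fun s => e (tCoord (fun l => g (tU k l)) (fun l => g (tV k l)) (g (tA k)) 0 1 s)) =
      tCoord (tU k) (tV k) (tA k) 0 1 := by
    funext s
    rcases s with s | s | s
    · simp only [tCoord, Sum.elim_inl, map_div₀, hg]
    · simp only [tCoord, Sum.elim_inl, Sum.elim_inr, plu, map_div₀, map_sub, map_mul, hg]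
    · fin_cases s
      · simp [tCoord, plu, hg]
      · simp [tCoord, plu, hg]
  refine ⟨fun l => g (tU k l), fun l => g (tV k l), g (tA k), ?_, ?_, ?_, ?_, g r, ?_, ?_⟩
  · refine hinj _ _ ?_
    rw [hg, map_one]
    exact hT.u0
  · refine hinj _ _ ?_
    have h1 := map_plu e.toRingHom (fun l => g (tU k l)) (fun l => g (tV k l)) 0 1
    have h2 : (fun l => e.toRingHom (g (tU k l))) = tU k := by
      funext l
      exact hg _
    have h3 : (fun l => e.toRingHom (g (tV k l))) = tV k := by
      funext l
      exact hg _
    rw [h2, h3, hT.p01] at h1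
    rw [map_one]
    exact h1
  · refine AlgebraicIndependent.of_comp e ?_
    have h4 := hT.indep
    rw [← hc] at h4
    exact h4
  · refine adjoin_of_map e _ ?_
    rw [hc, hT.gen]
    exact le_top
  · intro h0
    apply hr
    rw [← hg r, h0, map_zero]
  · intro I
    refine hinj _ _ ?_
    have h1 := map_zfun e.toRingHom (fun l => g (tU k l)) (fun l => g (tV k l))
      ![g (tA k), 0, 1, 0] I
    have h2 : (fun l => e.toRingHom (g (tU k l))) = tU k := by
      funext l
      exact hg _
    have h3 : (fun l => e.toRingHom (g (tV k l))) = tV k := by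
      funext l
      exact hg _
    have h4 : (fun m => e.toRingHom ((![g (tA k), 0, 1, 0] : Fin 4 → L) m)) =
        ![tA k, 0, 1, 0] := by
      funext m
      fin_cases m
      · exact hg _
      · exact map_zero _
      · exact map_one _
      · exact map_zero _
    rw [h2, h3, h4] at h1
    rw [he I, map_mul, hg]
    change r * zfun (tU k) (tV k) ![tA k, 0, 1, 0] I = r * e.toRingHom _
    rw [h1]

/-- `ends_of_finrank` with `F = k(cellCoord zT 0 1 0)` (`IsGenT.cell_finrank`) and
`E = e.fieldRange`. -/
theorem expDichotomy (k : Type u) [Field k] [CharZero k] : ExpDichotomy k := by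
  intro L _ _ z _ hE _
  obtain ⟨e, r, hr, he⟩ := hE
  have h01 : (0 : Fin 10) ≠ 1 := by decide
  obtain ⟨hfin, h3⟩ := (isGenT_T k).cell_finrank h01 0
  have hle : IntermediateField.adjoin k (Set.range (cellCoord (zT k) 0 1 0)) ≤ e.fieldRange := by
    rw [IntermediateField.adjoin_le_iff]
    rintro _ ⟨s, rfl⟩
    exact ⟨_, (emb_cell hr he).2.2 0 1 0 s⟩
  rcases ends_of_finrank _ _ hle hfin h3 with h | h
  · exact Or.inl (isGenX_of_range hr he h)
  · exact Or.inr (isGenT_of_range hr he h)

end MP9a7843
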