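import Pool.Agent.Lib.MP_9a7843_ag_T.Chart
import Pool.Agent.Lib.MP_9a7843_ag_D.Tr

/-!
# MP_9a7843_ag, block T, module Gen: the generic point of `T` in all charts
-/

noncomputable section

open MvPolynomial Classical

namespace MP9a7843

variable {k : Type*} [Field k] {K : Type*} [Field K] [Algebra k K] {z : Idx → K}
  {u v : Fin 10 → K} {a0 : K} {i j : Fin 10}

/-- The test point of the chart `(0; 1)`: `U_l = 1`, `p_l = l`, `b = 0`, `a = 1`. -/
private def gen_pt (k : Type*) [Field k] : TVar 0 1 → k :=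
  Sum.elim (fun _ => 1) (Sum.elim (fun l => (((l : Fin 10) : ℕ) : k)) ![0, 1])

private theorem gen_evu (l : Fin 10) : MvPolynomial.eval (gen_pt k) (uT k 0 1 l) = 1 := by
  unfold uT
  split_ifs with h
  · rw [eval_X]
    rfl
  · rw [map_one]

private theorem gen_evp (l : Fin 10) :
    MvPolynomial.eval (gen_pt k) (pT k 0 1 l) = ((l : ℕ) : k) := by
  unfold pT
  split_ifs with h h1
  · rw [eval_X]
    rfl
  · rw [map_one, h1]
    simp
  · have h2 : l = 0 := by
      by_contra h3
      exact h ⟨h3, h1⟩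
    rw [map_zero, h2]
    simp

private theorem gen_evb : MvPolynomial.eval (gen_pt k) (bT k 0 1) = 0 := by
  unfold bT
  rw [eval_X]
  rfl

private theorem gen_eva : MvPolynomial.eval (gen_pt k) (aT k 0 1) = 1 := by
  unfold aT
  rw [eval_X]
  rfl

private theorem gen_evv (l : Fin 10) :
    MvPolynomial.eval (gen_pt k) (vT k 0 1 l) = ((l : ℕ) : k) := by
  unfold vT
  rw [map_add, map_mul, gen_evb, gen_evp, zero_mul, zero_add]

private theorem gen_evcub (a b d : Fin 10) : MvPolynomial.eval (gen_pt k)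
    (cub (uT k 0 1) (vT k 0 1) ![aT k 0 1, 0, 1, 0] a b d) =
      ((1 + (b : ℕ) * (d : ℕ) + (a : ℕ) * (d : ℕ) + (a : ℕ) * (b : ℕ) : ℕ) : k) := by
  have h := map_cub (MvPolynomial.eval (gen_pt k)) (uT k 0 1) (vT k 0 1)
    ![aT k 0 1, 0, 1, 0] a b d
  rw [h]
  unfold cub
  simp only [gen_evu, gen_evv]
  simp only [Matrix.cons_val, gen_eva, map_zero, map_one]
  push_cast
  ring

theorem IsGenT.rel (h : IsGenT k z u v a0) : Rel z := by
  obtain ⟨r, _, hr⟩ := h.eq
  have e : z = r • zfun u v ![a0, 0, 1, 0] := by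
    funext I
    exact hr I
  rw [e]
  exact (rel_zfun _ _ _).smul _

private theorem gen_u0 (h : IsGenT k z u v a0) : u 0 ≠ 0 := by
  rw [h.u0]
  exact one_ne_zero

private theorem gen_p01 (h : IsGenT k z u v a0) : plu u v 0 1 ≠ 0 := by
  rw [h.p01]
  exact one_ne_zero

private theorem gen_cub (h : IsGenT k z u v a0) (a b d : Fin 10)
    (h0 : MvPolynomial.eval (gen_pt k)
      (cub (uT k 0 1) (vT k 0 1) ![aT k 0 1, 0, 1, 0] a b d) ≠ 0) :
    cub u v ![a0, 0, 1, 0] a b d ≠ 0 := by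
  have h1 : cub (uT k 0 1) (vT k 0 1) ![aT k 0 1, 0, 1, 0] a b d ≠ 0 := by
    intro h2
    rw [h2, map_zero] at h0
    exact h0 rfl
  have h2 := aeval_ne_zero h.indep h1
  rw [aeval_cubT (gen_u0 h) (gen_p01 h)] at h2
  intro h3
  rw [h3, zero_mul, zero_div] at h2
  exact h2 rfl

theorem IsGenT.z_ne_zero (h : IsGenT k z u v a0) : z ≠ 0 := by
  obtain ⟨r, hr0, hr⟩ := h.eq
  have h1 : cub u v ![a0, 0, 1, 0] 0 0 0 ≠ 0 := by
    refine gen_cub h 0 0 0 ?_
    rw [gen_evcub]
    simp
  have h2 : z ((0, 0, 0), (0, 1)) ≠ 0 := by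
    rw [hr]
    exact mul_ne_zero hr0 (mul_ne_zero h1 (gen_p01 h))
  intro h3
  rw [h3] at h2
  exact h2 rfl

theorem IsGenT.plu01_ne (h : IsGenT k z u v a0) : plu u v 0 1 ≠ 0 := gen_p01 h

theorem IsGenT.u0_ne (h : IsGenT k z u v a0) : u 0 ≠ 0 := gen_u0 h

/-- `u_l / u_0` is the value of the polynomial `uT k 0 1 l ≠ 0` (a variable or `1`) at algebraically
independent elements. -/
theorem IsGenT.u_ne (h : IsGenT k z u v a0) (l : Fin 10) : u l ≠ 0 := by
  have h1 : uT k 0 1 l ≠ 0 := by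
    intro h0
    have h2 := gen_evu (k := k) l
    rw [h0, map_zero] at h2
    exact zero_ne_one h2
  have h2 := aeval_ne_zero h.indep h1
  rw [aeval_uT (gen_u0 h)] at h2
  intro h3
  rw [h3, zero_div] at h2
  exact h2 rfl

/-- `P_de / P_01` is the value of the polynomial `plu (uT k 0 1) (pT k 0 1) d e`, which is not zero:
its value at the point with all `U_l = 1`, `p_l = l` is `e - d ≠ 0`. -/
theorem IsGenT.plu_ne [CharZero k] (h : IsGenT k z u v a0) {d e : Fin 10} (hde : d ≠ e) :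
    plu u v d e ≠ 0 := by
  have h1 : plu (uT k 0 1) (pT k 0 1) d e ≠ 0 := by
    intro h0
    have h2 := map_plu (MvPolynomial.eval (gen_pt k)) (uT k 0 1) (pT k 0 1) d e
    rw [h0, map_zero] at h2
    unfold plu at h2
    simp only [gen_evu, gen_evp, one_mul] at h2
    exact hde (Fin.ext (Nat.cast_injective (R := k) (sub_eq_zero.1 h2.symm)).symm)
  have h2 := aeval_ne_zero h.indep h1
  rw [aeval_pluT (gen_u0 h) (gen_p01 h)] at h2
  intro h3
  rw [h3, zero_div] at h2
  exact h2 rfl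

/-- `F_abd` is `P_01^2 / u_0` times the value of the polynomial
`cub (uT k 0 1) (vT k 0 1) ![aT k 0 1, 0, 1, 0] a b d` (`aeval_cubT`), which is not zero: its value
at
the point with all `U_l = 1`, `p_l = l`, `b = 0`, `a = 1` is `1 + b d + a d + a b`, a positive
integer. -/
theorem IsGenT.cub_ne [CharZero k] (h : IsGenT k z u v a0) (a b d : Fin 10) :
    cub u v ![a0, 0, 1, 0] a b d ≠ 0 := by
  refine gen_cub h a b d ?_
  rw [gen_evcub, Nat.cast_ne_zero]
  omega

theorem IsGenT.cell_ne [CharZero k] (h : IsGenT k z u v a0) (hij : i ≠ j) (m : Fin 4) :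
    z (cellIdx i j m) ≠ 0 := by
  obtain ⟨r, hr0, hr⟩ := h.eq
  rw [hr]
  exact mul_ne_zero hr0 (mul_ne_zero (h.cub_ne _ _ _) (h.plu_ne hij))

theorem card_tVarT (hij : i ≠ j) : Fintype.card (TVar i j) = 19 := by
  have h9 : Fintype.card {l : Fin 10 // l ≠ i} = 9 := by
    rw [Fintype.card_subtype]
    have e : (Finset.univ.filter fun l : Fin 10 => l ≠ i) = Finset.univ.erase i := by
      ext l
      simp
    rw [e, Finset.card_erase_of_mem (Finset.mem_univ i), Finset.card_univ, Fintype.card_fin]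
  have h8 : Fintype.card {l : Fin 10 // l ≠ i ∧ l ≠ j} = 8 := by
    rw [Fintype.card_subtype]
    have e : (Finset.univ.filter fun l : Fin 10 => l ≠ i ∧ l ≠ j) =
        (Finset.univ.erase i).erase j := by
      ext l
      simp [and_comm]
    rw [e, Finset.card_erase_of_mem, Finset.card_erase_of_mem (Finset.mem_univ i),
      Finset.card_univ, Fintype.card_fin]
    exact Finset.mem_erase.mpr ⟨hij.symm, Finset.mem_univ j⟩
  rw [Fintype.card_sum, Fintype.card_sum, h9, h8, Fintype.card_fin]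

private theorem gen_mem {σ : Type*} (f : σ → K) (p : MvPolynomial σ k) :
    aeval f p ∈ IntermediateField.adjoin k (Set.range f) := by
  apply IntermediateField.algebra_adjoin_le_adjoin
  rw [Algebra.adjoin_range_eq_range_aeval]
  exact ⟨p, rfl⟩

/-- `tCoord_trans` from `(0; 1)` to `(i; j)`, as `X/Cells.lean`, `IsGenX.gen_cell`. -/
theorem IsGenT.gen_chart [CharZero k] (h : IsGenT k z u v a0) (hij : i ≠ j) :
    IntermediateField.adjoin k (Set.range (tCoord u v a0 i j)) = ⊤ := by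
  rw [eq_top_iff, ← h.gen, IntermediateField.adjoin_le_iff]
  rintro _ ⟨x, rfl⟩
  obtain ⟨P, m, n, e⟩ := tCoord_trans (k := k) (a0 := a0) (gen_u0 h) (gen_p01 h) (h.u_ne i)
    (h.plu_ne hij) x
  rw [e]
  exact div_mem (gen_mem _ _) (gen_mem _ _)

/-- `algebraicIndependent_of_card`, `isAlgebraic_of_adjoin_eq_top`, `card_tVarT`. -/
theorem IsGenT.indep_chart [CharZero k] (h : IsGenT k z u v a0) (hij : i ≠ j) :
    AlgebraicIndependent k (tCoord u v a0 i j) := by
  refine algebraicIndependent_of_card h.indep (isAlgebraic_of_adjoin_eq_top h.gen)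
    (isAlgebraic_of_adjoin_eq_top (h.gen_chart hij)) ?_
  rw [card_tVarT hij, card_tVarT (by decide)]

end MP9a7843
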