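import Pool.Agent.Lib.MP_9a7843_ag_T.Root
import Pool.Agent.Lib.MP_9a7843_ag_T.Gen
import Pool.Agent.Lib.MP_9a7843_ag_X.Cells

/-!
# MP_9a7843_ag, block T, module CellT: the cell coordinates of the generic point of `T`

The function field of `T` is generated by the coordinates of a cell and the root `β = u_j / u_i` of
a
cubic over the field generated by the coordinates of the cell.
-/

noncomputable section

open MvPolynomial Classical

namespace MP9a7843

variable {k : Type*} [Field k] [CharZero k] {K : Type*} [Field K] [Algebra k K] {z : Idx → K}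
  {u v : Fin 10 → K} {a0 : K} {i j : Fin 10}

omit [CharZero k] in
private theorem ct_mem {σ : Type*} (f : σ → K) (F : IntermediateField k K) (hF : ∀ s, f s ∈ F)
    (p : MvPolynomial σ k) : aeval f p ∈ F := by
  have h1 : Algebra.adjoin k (Set.range f) ≤ F.toSubalgebra := by
    rw [Algebra.adjoin_le_iff]
    rintro _ ⟨s, rfl⟩
    exact hF s
  apply h1
  rw [Algebra.adjoin_range_eq_range_aeval]
  exact ⟨p, rfl⟩

private theorem ct_E (h : IsGenT k z u v a0) (hij : i ≠ j) (m : Fin 4)
    (F : IntermediateField k K) (hF : ∀ s, cellCoord z i j m s ∈ F) (l : Fin 10) :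
    cellE z i j m l ∈ F := by
  rw [← aeval_uC k h.rel (h.cell_ne hij m) l]
  exact ct_mem _ F hF _

private theorem ct_E' (h : IsGenT k z u v a0) (hij : i ≠ j) (m : Fin 4)
    (F : IntermediateField k K) (hF : ∀ s, cellCoord z i j m s ∈ F) (l : Fin 10) :
    cellE' z i j m l ∈ F := by
  rw [← aeval_vC k h.rel (h.cell_ne hij m) l]
  exact ct_mem _ F hF _

private theorem ct_G (h : IsGenT k z u v a0) (hij : i ≠ j) (m : Fin 4)
    (F : IntermediateField k K) (hF : ∀ s, cellCoord z i j m s ∈ F) (m' : Fin 4) :
    cellG z i j m m' ∈ F := by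
  rw [← aeval_cC k (h.cell_ne hij m) m']
  exact ct_mem _ F hF _

/-- All chart coordinates are rational functions of `β` and the cell coordinates: `U_eq`,
`cellE'_chart`, `b_eq`, `a_eq` (the values `cellE`, `cellE'`, `cellG` are cell coordinates, `0`
or `1`). -/
theorem IsGenT.cell_gen (h : IsGenT k z u v a0) (hij : i ≠ j) (m : Fin 4)
    (F : IntermediateField k K) (hF : ∀ s, cellCoord z i j m s ∈ F) (hβ : u j / u i ∈ F) :
    F = ⊤ := by
  obtain ⟨r, hr, hz⟩ := h.eq
  have hu := h.u_ne i
  have hP := h.plu_ne hij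
  have hc := h.cell_ne hij m
  have : CharZero K := charZero_of_injective_algebraMap (algebraMap k K).injective
  have hn : ∀ n : ℕ, (n : K) ∈ F := fun n => natCast_mem F n
  have hE := ct_E h hij m F hF
  have hE' := ct_E' h hij m F hF
  have hG := ct_G h hij m F hF
  have hc2 : cellG z i j m 0 * (u j / u i) ^ 2 - 2 * cellG z i j m 1 * (u j / u i) +
      cellG z i j m 2 ∈ F := by
    have h2 := hn 2
    rw [Nat.cast_ofNat] at h2
    exact add_mem (sub_mem (mul_mem (hG 0) (pow_mem hβ 2)) (mul_mem (mul_mem h2 (hG 1)) hβ)) (hG 2)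
  have hb : v i * u i / plu u v i j ∈ F := by
    rw [b_eq hr hz hu hP hc two_ne_zero]
    have h2 := hn 2
    rw [Nat.cast_ofNat] at h2
    exact div_mem (sub_mem (hG 1) (mul_mem (hG 0) hβ)) (mul_mem h2 hc2)
  rw [eq_top_iff, ← h.gen_chart hij, IntermediateField.adjoin_le_iff]
  rintro _ ⟨x, rfl⟩
  rcases x with l | l | l
  · change u l.1 / u i ∈ F
    rw [U_eq hr hz hu hP hc]
    exact add_mem (hE _) (mul_mem hβ (hE' _))
  · change plu u v i l.1 / plu u v i j ∈ F
    rw [← cellE'_chart hr hz hu hP hc]
    exact hE' _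
  · fin_cases l
    · exact hb
    · change a0 * u i ^ 4 / plu u v i j ^ 2 ∈ F
      rw [a_eq hr hz hu hP hc]
      have h3 := hn 3
      rw [Nat.cast_ofNat] at h3
      exact sub_mem (div_mem (hG 0) hc2) (mul_mem h3 (pow_mem hb 2))

private theorem ct_poly {L : Type*} [Field L] [CharZero L] {K : Type*} [Field K] [Algebra L K]
    (g : Fin 4 → L) {m : Fin 4} (hg : g m = 1) (β : K)
    (h : -algebraMap L K (g 0) * β ^ 3 + 3 * algebraMap L K (g 1) * β ^ 2 -
      3 * algebraMap L K (g 2) * β + algebraMap L K (g 3) = 0) :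
    ∃ f : Polynomial L, f ≠ 0 ∧ f.natDegree ≤ 3 ∧ Polynomial.aeval β f = 0 := by
  refine ⟨Polynomial.C (-g 0) * Polynomial.X ^ 3 + Polynomial.C (3 * g 1) * Polynomial.X ^ 2 +
    Polynomial.C (-(3 * g 2)) * Polynomial.X + Polynomial.C (g 3), ?_,
    Polynomial.natDegree_cubic_le, ?_⟩
  · intro h0
    have h1 := fun n => congrArg (fun f : Polynomial L => f.coeff n) h0
    have e3 := h1 3
    have e2 := h1 2
    have e1 := h1 1
    have e0 := h1 0
    simp only [Polynomial.coeff_add, Polynomial.coeff_C_mul, Polynomial.coeff_X_pow,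
      Polynomial.coeff_X, Polynomial.coeff_C, Polynomial.coeff_zero] at e0 e1 e2 e3
    norm_num at e0 e1 e2 e3
    fin_cases m
    · exact one_ne_zero (hg.symm.trans e3)
    · exact one_ne_zero (hg.symm.trans e2)
    · exact one_ne_zero (hg.symm.trans e1)
    · exact one_ne_zero (hg.symm.trans e0)
  · rw [← h]
    simp only [map_add, map_mul, map_pow, map_neg, Polynomial.aeval_C, Polynomial.aeval_X,
      map_ofNat]
    ring

/-- `β` is a root of a nonzero polynomial of degree `≤ 3` over the field of the cell coordinates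
(`root_eq`; one of its coefficients is `±1`, `±3`). -/
theorem IsGenT.cell_root (h : IsGenT k z u v a0) (hij : i ≠ j) (m : Fin 4) :
    ∃ f : Polynomial (IntermediateField.adjoin k (Set.range (cellCoord z i j m))),
      f ≠ 0 ∧ f.natDegree ≤ 3 ∧ Polynomial.aeval (u j / u i) f = 0 := by
  obtain ⟨r, hr, hz⟩ := h.eq
  have hu := h.u_ne i
  have hP := h.plu_ne hij
  have hc := h.cell_ne hij m
  have : CharZero K := charZero_of_injective_algebraMap (algebraMap k K).injective
  set L := IntermediateField.adjoin k (Set.range (cellCoord z i j m)) with hL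
  have hG := ct_G h hij m L fun s => IntermediateField.subset_adjoin k _ ⟨s, rfl⟩
  let g : Fin 4 → L := fun m' => ⟨cellG z i j m m', hG m'⟩
  have hg : g m = 1 := Subtype.ext (cellG_self hc)
  have : CharZero L := charZero_of_injective_algebraMap (algebraMap k L).injective
  exact ct_poly g hg (u j / u i) (root_eq hr hz hu hP hc)

omit [CharZero k] in
private theorem ct_top (L : IntermediateField k K) (β : K)
    (H : ∀ F : IntermediateField k K, L ≤ F → β ∈ F → F = ⊤) :
    IntermediateField.adjoin L {β} = ⊤ := by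
  have h1 := H (IntermediateField.adjoin k ((L : Set K) ∪ {β}))
    (fun x hx => IntermediateField.subset_adjoin k _ (Or.inl hx))
    (IntermediateField.subset_adjoin k _ (Or.inr rfl))
  rw [← IntermediateField.restrictScalars_adjoin] at h1
  rw [eq_top_iff]
  intro x _
  have h2 : x ∈ (⊤ : IntermediateField k K) := IntermediateField.mem_top
  rw [← h1] at h2
  exact h2

private theorem ct_fin' {L : Type*} [Field L] {K : Type*} [Field K] [Algebra L K] {β : K}
    {f : Polynomial L} (hf : f ≠ 0) (hd : f.natDegree ≤ 3) (hr : Polynomial.aeval β f = 0)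
    (h3 : IntermediateField.adjoin L {β} = ⊤) :
    FiniteDimensional L K ∧ Module.finrank L K ≤ 3 := by
  have hint : IsIntegral L β := isAlgebraic_iff_isIntegral.1 ⟨f, hf, hr⟩
  have h1 := IntermediateField.adjoin.finrank hint
  have h2 := IntermediateField.adjoin.finiteDimensional hint
  rw [h3] at h1 h2
  refine ⟨?_, ?_⟩
  · exact Module.Finite.equiv (IntermediateField.topEquiv (F := L) (E := K)).toLinearEquiv
  · rw [IntermediateField.finrank_top'] at h1
    rw [h1]
    exact (Polynomial.natDegree_le_of_dvd (minpoly.dvd _ _ hr) hf).trans hd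

private theorem ct_fin (h : IsGenT k z u v a0) (hij : i ≠ j) (m : Fin 4) :
    FiniteDimensional (IntermediateField.adjoin k (Set.range (cellCoord z i j m))) K ∧
      Module.finrank (IntermediateField.adjoin k (Set.range (cellCoord z i j m))) K ≤ 3 := by
  obtain ⟨f, hf, hd, hr⟩ := h.cell_root hij m
  refine ct_fin' hf hd hr (ct_top _ _ fun F hF hβ => h.cell_gen hij m F (fun s => ?_) hβ)
  exact hF (IntermediateField.subset_adjoin k _ ⟨s, rfl⟩)

/-- So `K` is algebraic over the field of the cell coordinates. -/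
theorem IsGenT.cell_alg (h : IsGenT k z u v a0) (hij : i ≠ j) (m : Fin 4) :
    Algebra.IsAlgebraic (IntermediateField.adjoin k (Set.range (cellCoord z i j m))) K := by
  have := (ct_fin h hij m).1
  exact Algebra.IsAlgebraic.of_finite _ _

/-- `algebraicIndependent_of_card`, `card_cellVar`, `card_tVarT`. -/
theorem IsGenT.cell_indep (h : IsGenT k z u v a0) (hij : i ≠ j) (m : Fin 4) :
    AlgebraicIndependent k (cellCoord z i j m) := by
  refine algebraicIndependent_of_card (h.indep_chart hij)
    (isAlgebraic_of_adjoin_eq_top (h.gen_chart hij)) (h.cell_alg hij m) ?_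
  rw [card_tVarT hij]
  refine le_of_eq ?_
  rw [← card_cellVar hij m]

/-- The degree of `K` over the field of the cell coordinates is at most `3` (and it is finite). -/
theorem IsGenT.cell_finrank (h : IsGenT k z u v a0) (hij : i ≠ j) (m : Fin 4) :
    FiniteDimensional (IntermediateField.adjoin k (Set.range (cellCoord z i j m))) K ∧
      Module.finrank (IntermediateField.adjoin k (Set.range (cellCoord z i j m))) K ≤ 3 :=
  ct_fin h hij m

end MP9a7843
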