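import Pool.Agent.Lib.MP_9a7843_ag_T.Const
import Pool.Agent.Lib.MP_9a7843_ag_T.GenTT
import Pool.Agent.Lib.MP_9a7843_ag_T.CellT
import Pool.Agent.Lib.MP_9a7843_ag_A.Exports

/-!
# MP_9a7843_ag, block T, module Emb: the function field of `T`, embeddings
-/

noncomputable section

open MvPolynomial Classical

namespace MP9a7843

universe u

variable (k : Type u) [Field k]

/-- `const_of_regular` for `isGenT_T`. -/
theorem expConst [CharZero k] : ExpConst k := by
  intro φ hφ
  exact const_of_regular (isGenT_T k) hφ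

/-- Let `x = cellCoord z 0 1 0`, `y = cellCoord (zT k) 0 1 0` (algebraically independent,
`IsGenT.cell_indep`), `i : L → K_T` with `i (x s) = y s` (`exists_algHom`).  By the cell formula
(`cell_formula` for `zT`; `IsGenX.eq` for `z`), `i (z_I / z_c) = zT_I / zT_c`. -/
theorem expEmb [CharZero k] : ExpEmb k := by
  intro L _ _ z hz
  have hT := isGenT_T k
  have h01 : (0 : Fin 10) ≠ 1 := by decide
  have hcT : zT k (cellIdx 0 1 0) ≠ 0 := hT.cell_ne h01 0
  obtain ⟨i, hi⟩ := exists_algHom hz.indep hz.gen (hT.cell_indep h01 0)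
  have key : ∀ I, i (z I / z (cellIdx 0 1 0)) = zT k I / zT k (cellIdx 0 1 0) := by
    intro I
    rw [← aeval_zC k hz.rel hz.ne I, ← aeval_zC k hT.rel hcT I, comp_aeval_apply]
    congr 2
    funext s
    exact hi s
  refine ⟨i, i (z (cellIdx 0 1 0)) / zT k (cellIdx 0 1 0),
    div_ne_zero ((map_ne_zero i).2 hz.ne) hcT, fun I => ?_⟩
  have h1 := key I
  rw [map_div₀, div_eq_div_iff ((map_ne_zero i).2 hz.ne) hcT] at h1
  rw [div_mul_eq_mul_div, eq_div_iff hcT, h1]
  ring

end MP9a7843
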