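import Pool.Agent.Lib.MP_9a7843_ag_X.Rel
import Pool.Agent.Lib.MP_9a7843_ag_D.Der

/-!
# MP_9a7843_ag, block T, module Chart: the charts of `T` and their transition formulas

`(u, v, a0)` over a field `K` with `u_i ≠ 0`, `P_ij ≠ 0` (`P = plu u v`) is equivalent to the
normalised
triple `U = u / u_i`, `V = b U + p`, `a`, with `b = v_i u_i / P_ij`, `p_l = P_il / P_ij`,
`a = a0 u_i^4 / P_ij^2`. The entries of `U, p` and `b, a` are the chart coordinates `tCoord u v a0
i j`.
-/

noncomputable section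

open MvPolynomial Classical

namespace MP9a7843

section Poly

variable (R : Type*) [CommRing R] (i j : Fin 10)

/-- `U_l`, as a polynomial in the coordinates of the chart. -/
def uT (l : Fin 10) : MvPolynomial (TVar i j) R := if h : l ≠ i then X (Sum.inl ⟨l, h⟩) else 1

/-- `p_l`, as a polynomial in the coordinates of the chart. -/
def pT (l : Fin 10) : MvPolynomial (TVar i j) R :=
  if h : l ≠ i ∧ l ≠ j then X (Sum.inr (Sum.inl ⟨l, h⟩)) else if l = j then 1 else 0

/-- The coordinate `b`. -/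
def bT : MvPolynomial (TVar i j) R := X (Sum.inr (Sum.inr 0))

/-- The coordinate `a`. -/
def aT : MvPolynomial (TVar i j) R := X (Sum.inr (Sum.inr 1))

/-- `V_l = b U_l + p_l`. -/
def vT (l : Fin 10) : MvPolynomial (TVar i j) R := bT R i j * uT R i j l + pT R i j l

/-- `ψ = a + 3 b^2`. -/
def psT : MvPolynomial (TVar i j) R := aT R i j + 3 * bT R i j ^ 2

/-- The coefficients of the cubic `a U^3 + 3 U V^2` in the basis `E = U - U_j p`, `E' = p`. -/
def gT (m : Fin 4) : MvPolynomial (TVar i j) R :=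
  ![psT R i j, psT R i j * uT R i j j + 2 * bT R i j,
    psT R i j * uT R i j j ^ 2 + 4 * bT R i j * uT R i j j + 1,
    psT R i j * uT R i j j ^ 3 + 6 * bT R i j * uT R i j j ^ 2 + 3 * uT R i j j] m

end Poly

section Val

variable {k : Type*} [Field k] {K : Type*} [Field K] [Algebra k K] {u v : Fin 10 → K} {a0 : K}
  {i j i' j' : Fin 10}

theorem aeval_uT (hu : u i ≠ 0) (l : Fin 10) :
    aeval (tCoord u v a0 i j) (uT k i j l) = u l / u i := by
  by_cases h : l ≠ i
  · rw [uT, dif_pos h, aeval_X]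
    rfl
  · rw [uT, dif_neg h, map_one, not_not.1 h, div_self hu]

theorem aeval_pT (hP : plu u v i j ≠ 0) (l : Fin 10) :
    aeval (tCoord u v a0 i j) (pT k i j l) = plu u v i l / plu u v i j := by
  by_cases h : l ≠ i ∧ l ≠ j
  · rw [pT, dif_pos h, aeval_X]
    rfl
  · rw [pT, dif_neg h]
    by_cases h1 : l = j
    · rw [if_pos h1, map_one, h1, div_self hP]
    · have h2 : l = i := by
        by_contra h3
        exact h ⟨h3, h1⟩
      rw [if_neg h1, map_zero, h2]
      simp [plu]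

theorem aeval_bT : aeval (tCoord u v a0 i j) (bT k i j) = v i * u i / plu u v i j := by
  rw [bT, aeval_X]
  rfl

theorem aeval_aT : aeval (tCoord u v a0 i j) (aT k i j) = a0 * u i ^ 4 / plu u v i j ^ 2 := by
  rw [aT, aeval_X]
  rfl

theorem aeval_vT (hu : u i ≠ 0) (hP : plu u v i j ≠ 0) (l : Fin 10) :
    aeval (tCoord u v a0 i j) (vT k i j l) = v l * u i / plu u v i j := by
  rw [vT, map_add, map_mul, aeval_bT, aeval_uT hu, aeval_pT hP]
  have h1 : plu u v i j ≠ 0 := hP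
  generalize plu u v i j = P at h1 ⊢
  rw [plu]
  field_simp
  ring

/-- The Pluecker coordinates in the chart. -/
theorem aeval_pluT (hu : u i ≠ 0) (hP : plu u v i j ≠ 0) (d e : Fin 10) :
    aeval (tCoord u v a0 i j) (plu (uT k i j) (pT k i j) d e) = plu u v d e / plu u v i j := by
  have h0 : aeval (tCoord u v a0 i j) (plu (uT k i j) (pT k i j) d e) =
      aeval (tCoord u v a0 i j) (uT k i j d) * aeval (tCoord u v a0 i j) (pT k i j e) -
        aeval (tCoord u v a0 i j) (uT k i j e) * aeval (tCoord u v a0 i j) (pT k i j d) := by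
    rw [plu, map_sub, map_mul, map_mul]
  rw [h0, aeval_uT hu, aeval_uT hu, aeval_pT hP, aeval_pT hP]
  have h1 : plu u v i j ≠ 0 := hP
  generalize plu u v i j = P at h1 ⊢
  rw [plu, plu, plu]
  field_simp
  ring

/-- The coordinates of the cubic `F` in the chart. -/
theorem aeval_cubT (hu : u i ≠ 0) (hP : plu u v i j ≠ 0) (a b d : Fin 10) :
    aeval (tCoord u v a0 i j) (cub (uT k i j) (vT k i j) ![aT k i j, 0, 1, 0] a b d) =
      cub u v ![a0, 0, 1, 0] a b d * u i / plu u v i j ^ 2 := by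
  have h0 : aeval (tCoord u v a0 i j) (cub (uT k i j) (vT k i j) ![aT k i j, 0, 1, 0] a b d) =
      cub (fun l => aeval (tCoord u v a0 i j) (uT k i j l))
        (fun l => aeval (tCoord u v a0 i j) (vT k i j l))
        ![aeval (tCoord u v a0 i j) (aT k i j), 0, 1, 0] a b d := by
    simp [cub]
  rw [h0, aeval_aT]
  simp only [aeval_uT hu, aeval_vT hu hP]
  have h1 : plu u v i j ≠ 0 := hP
  generalize plu u v i j = P at h1 ⊢
  simp only [cub, Matrix.cons_val_zero, Matrix.cons_val_one, Matrix.cons_val]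
  field_simp
  ring

/-- Transition of charts: the coordinates of the chart `(i; j)` are polynomials in those of the
chart
`(i'; j')`, divided by powers of `u_i / u_i'` and `P_ij / P_i'j'`.  (`u_l / u_i =
(u_l/u_i')/(u_i/u_i')`,
`P_il / P_ij = (P_il/P_i'j') / (P_ij/P_i'j')`, `b = (v_i u_i' / P_i'j') (u_i/u_i') / (P_ij/P_i'j')`,
`a = a' (u_i/u_i')^4 / (P_ij/P_i'j')^2`.) -/
theorem tCoord_trans (hu : u i ≠ 0) (hP : plu u v i j ≠ 0) (hu' : u i' ≠ 0)
    (hP' : plu u v i' j' ≠ 0) (s : TVar i j) :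
    ∃ (P : MvPolynomial (TVar i' j') k) (m n : ℕ), tCoord u v a0 i j s =
      aeval (tCoord u v a0 i' j') P / aeval (tCoord u v a0 i' j')
        (uT k i' j' i ^ m * plu (uT k i' j') (pT k i' j') i j ^ n) := by
  have hd : ∀ m n : ℕ, aeval (tCoord u v a0 i' j')
      (uT k i' j' i ^ m * plu (uT k i' j') (pT k i' j') i j ^ n) =
        (u i / u i') ^ m * (plu u v i j / plu u v i' j') ^ n := by
    intro m n
    rw [map_mul, map_pow, map_pow, aeval_uT hu', aeval_pluT hu' hP']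
  rcases s with l | l | t
  · refine ⟨uT k i' j' l.1, 1, 0, ?_⟩
    rw [hd, aeval_uT hu']
    change u l.1 / u i = _
    field_simp
  · refine ⟨plu (uT k i' j') (pT k i' j') i l.1, 0, 1, ?_⟩
    rw [hd, aeval_pluT hu' hP']
    change plu u v i l.1 / plu u v i j = _
    field_simp
  · fin_cases t
    · refine ⟨vT k i' j' i * uT k i' j' i, 0, 1, ?_⟩
      rw [hd, map_mul, aeval_vT hu' hP', aeval_uT hu']
      change v i * u i / plu u v i j = _
      field_simp
    · refine ⟨aT k i' j' * uT k i' j' i ^ 4, 0, 2, ?_⟩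
      rw [hd, map_mul, map_pow, aeval_aT, aeval_uT hu']
      change a0 * u i ^ 4 / plu u v i j ^ 2 = _
      field_simp

end Val

section Ch

variable (k : Type*) [Field k] {K : Type*} [Field K] [Algebra k K]

/-- `A` is etale over the chart `(i; j)` of `T`, at `(u, v, a0)`. -/
def TCh (u v : Fin 10 → K) (a0 : K) (A : ValuationSubring K) (i j : Fin 10) : Prop :=
  u i ≠ 0 ∧ plu u v i j ≠ 0 ∧ EtaleAt k A (tCoord u v a0 i j)

variable {k} {u v : Fin 10 → K} {a0 : K} {A : ValuationSubring K} {i j i' j' : Fin 10}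

/-- `aeval_uT`, `aeval_mem`. -/
theorem TCh.u_mem (hA : IsDVRof k A) (h : TCh k u v a0 A i j) (l : Fin 10) : u l / u i ∈ A := by
  have h1 := aeval_mem hA.1 h.2.2.1 (uT k i j l)
  rwa [aeval_uT h.1] at h1

theorem TCh.plu_mem (hA : IsDVRof k A) (h : TCh k u v a0 A i j) (d e : Fin 10) :
    plu u v d e / plu u v i j ∈ A := by
  have h1 := aeval_mem hA.1 h.2.2.1 (plu (uT k i j) (pT k i j) d e)
  rwa [aeval_pluT h.1 h.2.1] at h1

theorem TCh.cub_mem (hA : IsDVRof k A) (h : TCh k u v a0 A i j) (a b d : Fin 10) :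
    cub u v ![a0, 0, 1, 0] a b d * u i / plu u v i j ^ 2 ∈ A := by
  have h1 := aeval_mem hA.1 h.2.2.1 (cub (uT k i j) (vT k i j) ![aT k i j, 0, 1, 0] a b d)
  rwa [aeval_cubT h.1 h.2.1] at h1

/-- Change of charts (`EtaleAt.transfer` and `tCoord_trans` in both directions; the units are
`u_i' / u_i` and `P_i'j' / P_ij`). -/
theorem TCh.trans (hA : IsDVRof k A) (h : TCh k u v a0 A i j) (hu0 : u i' ≠ 0)
    (hP0 : plu u v i' j' ≠ 0) (hu : (u i' / u i)⁻¹ ∈ A)
    (hP : (plu u v i' j' / plu u v i j)⁻¹ ∈ A) : TCh k u v a0 A i' j' := by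
  have hd : ∀ (i1 j1 i2 j2 : Fin 10), u i1 ≠ 0 → plu u v i1 j1 ≠ 0 → ∀ m n : ℕ,
      aeval (tCoord u v a0 i1 j1) (uT k i1 j1 i2 ^ m * plu (uT k i1 j1) (pT k i1 j1) i2 j2 ^ n) =
        (u i2 / u i1) ^ m * (plu u v i2 j2 / plu u v i1 j1) ^ n := by
    intro i1 j1 i2 j2 h1 h2 m n
    rw [map_mul, map_pow, map_pow, aeval_uT h1, aeval_pluT h1 h2]
  refine ⟨hu0, hP0, EtaleAt.transfer hA.1 h.2.2 (fun s => ?_) (fun s => ?_)⟩
  · obtain ⟨P, m, n, hs⟩ := tCoord_trans (k := k) (a0 := a0) hu0 hP0 h.1 h.2.1 s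
    rw [hs, hd i j i' j' h.1 h.2.1, div_eq_mul_inv, mul_inv, ← inv_pow, ← inv_pow]
    exact mul_mem (aeval_mem hA.1 h.2.2.1 P) (mul_mem (pow_mem hu m) (pow_mem hP n))
  · obtain ⟨P, m, n, hs⟩ := tCoord_trans (k := k) (a0 := a0) h.1 h.2.1 hu0 hP0 s
    refine ⟨P, _, ?_, hs⟩
    rw [hd i' j' i j hu0 hP0, mul_inv, ← inv_pow, ← inv_pow, inv_div, inv_div]
    exact mul_mem (pow_mem (TCh.u_mem hA h i') m) (pow_mem (TCh.plu_mem hA h i' j') n)

end Ch

end MP9a7843
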