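import Pool.Agent.Lib.MP_9a7843_ag_D.Tr

/-!
# MP_9a7843_ag, block T, module Torus: torus argument for regular functions
-/

noncomputable section

open MvPolynomial Classical

namespace MP9a7843

/-- If `f(t) = g(t⁻¹)` for all nonzero `t ∈ k` then `f` is constant.

Proof.  With `n = natDegree g`, `t^n g(t⁻¹)` is a polynomial `g'` in `t` of degree `≤ n`
(`Polynomial.reverse`, `Polynomial.eval₂_reverse_mul_pow`, or `∑ coeff`), and `f X^n = g'` since
both
sides agree at infinitely many points (`Polynomial.eq_of_infinite_eval_eq`), so `f` has degree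
`0`. -/
theorem poly_const (k : Type*) [Field k] [Infinite k] {K : Type*} [Field K] [Algebra k K]
    (f g : Polynomial K)
    (h : ∀ t : k, t ≠ 0 → f.eval (algebraMap k K t) = g.eval (algebraMap k K t)⁻¹) :
    f.eval 1 = f.eval 0 := by
  set n := g.natDegree with hn
  set g' : Polynomial K := ∑ i ∈ Finset.range (n + 1),
    Polynomial.C (g.coeff i) * Polynomial.X ^ (n - i) with hg'
  have hdeg : g'.natDegree ≤ n := by
    refine Polynomial.natDegree_sum_le_of_forall_le _ _ fun i _ => ?_
    exact (Polynomial.natDegree_C_mul_X_pow_le _ _).trans (Nat.sub_le _ _)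
  have hev : ∀ t : K, t ≠ 0 → g'.eval t = t ^ n * g.eval t⁻¹ := by
    intro t ht
    rw [hg', Polynomial.eval_finsetSum, Polynomial.eval_eq_sum_range, Finset.mul_sum]
    refine Finset.sum_congr rfl fun i hi => ?_
    have hi' : i ≤ n := Nat.lt_succ_iff.1 (Finset.mem_range.1 hi)
    rw [Polynomial.eval_mul, Polynomial.eval_C, Polynomial.eval_pow, Polynomial.eval_X,
      pow_sub₀ t ht hi', inv_pow]
    ring
  have heq : f * Polynomial.X ^ n = g' := by
    refine Polynomial.eq_of_infinite_eval_eq _ _ (Set.Infinite.mono ?_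
      ((Set.finite_singleton (0 : k)).infinite_compl.image
        (algebraMap k K).injective.injOn))
    rintro _ ⟨t, ht, rfl⟩
    have ht0 : t ≠ 0 := ht
    have ht1 : algebraMap k K t ≠ 0 := (map_ne_zero_iff _ (algebraMap k K).injective).2 ht0
    rw [Set.mem_ofPred_eq, hev _ ht1, ← h t ht0, Polynomial.eval_mul, Polynomial.eval_pow,
      Polynomial.eval_X, mul_comm]
  have h0 : f.natDegree = 0 := by
    by_cases hf : f = 0
    · rw [hf, Polynomial.natDegree_zero]
    · have h1 : (f * Polynomial.X ^ n).natDegree = f.natDegree + n :=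
        Polynomial.natDegree_mul_X_pow n hf
      rw [heq] at h1
      omega
  rw [Polynomial.eq_C_of_natDegree_eq_zero h0, Polynomial.eval_C, Polynomial.eval_C]

variable {k : Type*} [Field k] [CharZero k] {K : Type*} [Field K] [Algebra k K]

omit [CharZero k] in
private theorem torus_eval {ρ : Type*} (y : ρ → K) (v : ρ → ℕ) (Q : MvPolynomial ρ k) (c : K) :
    (aeval (fun s => Polynomial.C (y s) * Polynomial.X ^ v s) Q : Polynomial K).eval c =
      aeval (fun s => y s * c ^ v s) Q := by
  have h3 := comp_aeval_apply (fun s => Polynomial.C (y s) * Polynomial.X ^ v s)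
    ((Polynomial.aeval c : Polynomial K →ₐ[K] K).restrictScalars k) Q
  simpa [Polynomial.coe_aeval_eq_eval] using h3

/-- General torus argument.  `x`, `x'` are two systems of algebraically independent generators of
`K`, and the automorphism which multiplies `x_s` by `t^(w s)` multiplies `x'_s` by `t^(-w' s)`
(hypothesis `hw`).  A polynomial in `x` which is also a polynomial in `x'` does not change if all
the
variables `x_s` with `w s ≠ 0` are replaced by `0`.

Proof.  For `t ≠ 0` in `k` let `σ_t` be the homomorphism with `σ_t(x_s) = t^(w s) x_s`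
(`exists_algHom`; the elements `t^(w s) x_s` are algebraically independent:
`algebraicIndependent_of_card`, they generate `K`).  `σ_t(φ) = f(t)` with
`f = aeval (fun s => C (x s) * X ^ w s) P`, and `σ_t(φ) = g(t⁻¹)` with
`g = aeval (fun s => C (x' s) * X ^ w' s) R`.  `poly_const` gives `φ = f(1) = f(0)`. -/
theorem torus_const {σ τ : Type*} [Fintype σ] {x : σ → K} {x' : τ → K}
    (hx : AlgebraicIndependent k x) (hg : IntermediateField.adjoin k (Set.range x) = ⊤)
    (w : σ → ℕ) (w' : τ → ℕ)
    (hw : ∀ (t : k) (i : K →ₐ[k] K), t ≠ 0 → (∀ s, i (x s) = algebraMap k K t ^ w s * x s) →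
      ∀ s, i (x' s) = (algebraMap k K t)⁻¹ ^ w' s * x' s)
    {φ : K} {P : MvPolynomial σ k} {R : MvPolynomial τ k} (h1 : φ = aeval x P)
    (h2 : φ = aeval x' R) :
    φ = aeval (fun s => if w s = 0 then x s else 0) P := by
  have key : ∀ t : k, t ≠ 0 →
      (aeval (fun s => Polynomial.C (x s) * Polynomial.X ^ w s) P : Polynomial K).eval
        (algebraMap k K t) =
      (aeval (fun s => Polynomial.C (x' s) * Polynomial.X ^ w' s) R : Polynomial K).eval
        (algebraMap k K t)⁻¹ := by
    intro t ht
    have ht1 : algebraMap k K t ≠ 0 := (map_ne_zero_iff _ (algebraMap k K).injective).2 ht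
    have hgy : IntermediateField.adjoin k
        (Set.range fun s => algebraMap k K t ^ w s * x s) = ⊤ := by
      rw [eq_top_iff, ← hg, IntermediateField.adjoin_le_iff]
      rintro _ ⟨s, rfl⟩
      have h3 : x s = algebraMap k K ((t ^ w s)⁻¹) * (algebraMap k K t ^ w s * x s) := by
        rw [map_inv₀, map_pow, inv_mul_cancel_left₀ (pow_ne_zero _ ht1)]
      rw [h3]
      exact mul_mem (IntermediateField.algebraMap_mem _ _)
        (IntermediateField.subset_adjoin _ _ ⟨s, rfl⟩)
    have hy : AlgebraicIndependent k fun s => algebraMap k K t ^ w s * x s :=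
      algebraicIndependent_of_card hx (isAlgebraic_of_adjoin_eq_top hg)
        (isAlgebraic_of_adjoin_eq_top hgy) le_rfl
    obtain ⟨i, hi⟩ := exists_algHom hx hg hy
    have e1 : i φ = aeval (fun s => x s * algebraMap k K t ^ w s) P := by
      rw [h1, comp_aeval_apply]
      congr 2
      funext s
      rw [hi, mul_comm]
    have e2 : i φ = aeval (fun s => x' s * (algebraMap k K t)⁻¹ ^ w' s) R := by
      rw [h2, comp_aeval_apply]
      congr 2
      funext s
      rw [hw t i ht hi, mul_comm]
    rw [torus_eval, torus_eval, ← e1, ← e2]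
  have h3 := poly_const k _ _ key
  rw [torus_eval, torus_eval] at h3
  simp only [one_pow, mul_one] at h3
  rw [← h1] at h3
  rw [h3]
  congr 2
  funext s
  by_cases hs : w s = 0
  · rw [hs, pow_zero, mul_one, if_pos rfl]
  · rw [zero_pow hs, mul_zero, if_neg hs]

end MP9a7843
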