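import Pool.Agent.Lib.MP_9a7843_ag_T.TwoB
import Pool.Agent.Lib.MP_9a7843_ag_T.Torus
import Pool.Agent.Lib.MP_9a7843_ag_D.Mult

/-!
# MP_9a7843_ag, block T, module Const: functions that are regular at all etale discrete valuation
rings are constant
-/

noncomputable section

open MvPolynomial Classical

namespace MP9a7843

variable {k : Type*} [Field k] [CharZero k] {K : Type*} [Field K] [Algebra k K] {z : Idx → K}
  {u v : Fin 10 → K} {a0 : K}

omit [CharZero k] in
private theorem const_eval {ρ : Type*} (y : ρ → K) (v : ρ → ℕ) (Q : MvPolynomial ρ k) (c : K) :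
    (aeval (fun s => Polynomial.C (y s) * Polynomial.X ^ v s) Q : Polynomial K).eval c =
      aeval (fun s => y s * c ^ v s) Q := by
  have h3 := comp_aeval_apply (fun s => Polynomial.C (y s) * Polynomial.X ^ v s)
    ((Polynomial.aeval c : Polynomial K →ₐ[K] K).restrictScalars k) Q
  simpa [Polynomial.coe_aeval_eq_eval] using h3

/-- Step 1: a polynomial in the coordinates of the charts `(0; 1)` and `(0; 2)` is a polynomial in
the
`u_l / u_0`.

Proof.  `torus_const` with the weights `0` on `u_l`, `1` on `p_l` and `b`, `2` on `a`.  The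
coordinates
of the chart `(0; 2)` are `u_l / u_0`, `P_0l / P_02 = p_l / p_2`, `P_01 / P_02 = 1 / p_2`, `b /
p_2`,
`a / p_2^2`, with weights `w' = 1` on the coordinate `P_01 / P_02` and `0` on the others. -/
theorem const_step1 (h : IsGenT k z u v a0) {φ : K} {P : MvPolynomial (TVar 0 1) k}
    {R : MvPolynomial (TVar 0 2) k} (h1 : φ = aeval (tCoord u v a0 0 1) P)
    (h2 : φ = aeval (tCoord u v a0 0 2) R) :
    φ = aeval (Sum.elim (fun l => u l.1 / u 0) (fun _ => 0) : TVar 0 1 → K) P := by
  have hu0 := h.u0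
  have hp01 := h.p01
  have h02 : plu u v 0 2 ≠ 0 := h.plu_ne (by decide)
  have key := torus_const h.indep h.gen
    (Sum.elim (fun _ => 0) (Sum.elim (fun _ => 1) ![1, 2]) : TVar 0 1 → ℕ)
    (Sum.elim (fun _ => 0) (Sum.elim (fun l => if l.1 = 1 then 1 else 0) (fun _ => 0)) :
      TVar 0 2 → ℕ) (x' := tCoord u v a0 0 2) ?_ h1 h2
  · rw [key]
    congr 2
    funext s
    rcases s with l | l | s
    · simp [tCoord]
    · simp
    · fin_cases s <;> simp
  · intro t i ht hi
    have ht1 : algebraMap k K t ≠ 0 := (map_ne_zero_iff _ (algebraMap k K).injective).2 ht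
    have hU : ∀ l : Fin 10, i (u l / u 0) = u l / u 0 := by
      intro l
      by_cases hl : l = 0
      · rw [hl, div_self (h.u_ne 0), map_one]
      · have := hi (Sum.inl ⟨l, hl⟩)
        simpa [tCoord] using this
    have hP : ∀ l : Fin 10, l ≠ 0 → l ≠ 1 → i (plu u v 0 l) = algebraMap k K t * plu u v 0 l := by
      intro l hl hl1
      have := hi (Sum.inr (Sum.inl ⟨l, hl, hl1⟩))
      simpa [tCoord, hp01] using this
    have hb : i (v 0 * u 0) = algebraMap k K t * (v 0 * u 0) := by
      have := hi (Sum.inr (Sum.inr 0))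
      simpa [tCoord, hp01] using this
    have ha : i (a0 * u 0 ^ 4) = algebraMap k K t ^ 2 * (a0 * u 0 ^ 4) := by
      have := hi (Sum.inr (Sum.inr 1))
      simpa [tCoord, hp01] using this
    have hP2 := hP 2 (by decide) (by decide)
    rintro (l | l | s)
    · simp only [tCoord, Sum.elim_inl, pow_zero, one_mul]
      exact hU l.1
    · simp only [tCoord, Sum.elim_inl, Sum.elim_inr]
      rw [map_div₀, hP2]
      by_cases hl : l.1 = 1
      · rw [if_pos hl, hl, hp01, map_one, pow_one]
        field_simp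
      · rw [if_neg hl, hP _ l.2.1 hl, pow_zero, one_mul, mul_div_mul_left _ _ ht1]
    · fin_cases s
      · change i (v 0 * u 0 / plu u v 0 2) = (algebraMap k K t)⁻¹ ^ 0 * (v 0 * u 0 / plu u v 0 2)
        rw [map_div₀, hP2, hb, pow_zero, one_mul, mul_div_mul_left _ _ ht1]
      · change i (a0 * u 0 ^ 4 / plu u v 0 2 ^ 2) =
          (algebraMap k K t)⁻¹ ^ 0 * (a0 * u 0 ^ 4 / plu u v 0 2 ^ 2)
        rw [map_div₀, map_pow, hP2, ha, pow_zero, one_mul, mul_pow,
          mul_div_mul_left _ _ (pow_ne_zero 2 ht1)]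

/-- Step 2: a polynomial in the `u_l / u_0` which is a polynomial in the coordinates of the chart
`(1; 0)` is constant.

Proof.  `torus_const` does not apply directly to the `u_l / u_0` (they do not generate `K`); use the
same argument with the automorphism `τ_t` that multiplies the coordinate `u_0 / u_1` of the chart
`(1; 0)` by `t` and fixes the others: `τ_t(u_l / u_0) = t⁻¹ u_l / u_0` (`l ≠ 0`).  So
`φ = f(1) = f(0)` for `f = aeval (Sum.elim (fun l => C (u_l / u_0) * X) 0) P` (`poly_const`, with
`f(t⁻¹) = g(t)`). -/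
theorem const_step2 (h : IsGenT k z u v a0) {φ : K} {P : MvPolynomial (TVar 0 1) k}
    {R : MvPolynomial (TVar 1 0) k}
    (h1 : φ = aeval (Sum.elim (fun l => u l.1 / u 0) (fun _ => 0) : TVar 0 1 → K) P)
    (h2 : φ = aeval (tCoord u v a0 1 0) R) :
    φ = algebraMap k K (constantCoeff P) := by
  have h10 : (1 : Fin 10) ≠ 0 := by decide
  have hx := h.indep_chart h10
  have hg := h.gen_chart h10
  set y : TVar 0 1 → K := Sum.elim (fun l => u l.1 / u 0) (fun _ => 0) with hy
  set w : TVar 1 0 → ℕ := Sum.elim (fun l => if l.1 = 0 then 1 else 0) (fun _ => 0) with hw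
  have key : ∀ t : k, t ≠ 0 →
      (aeval (fun s => Polynomial.C (tCoord u v a0 1 0 s) * Polynomial.X ^ w s) R :
        Polynomial K).eval (algebraMap k K t) =
      (aeval (fun s => Polynomial.C (y s) * Polynomial.X ^ 1) P : Polynomial K).eval
        (algebraMap k K t)⁻¹ := by
    intro t ht
    have ht1 : algebraMap k K t ≠ 0 := (map_ne_zero_iff _ (algebraMap k K).injective).2 ht
    have hgy : IntermediateField.adjoin k
        (Set.range fun s => algebraMap k K t ^ w s * tCoord u v a0 1 0 s) = ⊤ := by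
      rw [eq_top_iff, ← hg, IntermediateField.adjoin_le_iff]
      rintro _ ⟨s, rfl⟩
      have h3 : tCoord u v a0 1 0 s =
          algebraMap k K ((t ^ w s)⁻¹) * (algebraMap k K t ^ w s * tCoord u v a0 1 0 s) := by
        rw [map_inv₀, map_pow, inv_mul_cancel_left₀ (pow_ne_zero _ ht1)]
      rw [h3]
      exact mul_mem (IntermediateField.algebraMap_mem _ _)
        (IntermediateField.subset_adjoin _ _ ⟨s, rfl⟩)
    have hy' : AlgebraicIndependent k fun s => algebraMap k K t ^ w s * tCoord u v a0 1 0 s :=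
      algebraicIndependent_of_card hx (isAlgebraic_of_adjoin_eq_top hg)
        (isAlgebraic_of_adjoin_eq_top hgy) le_rfl
    obtain ⟨i, hi⟩ := exists_algHom hx hg hy'
    have e1 : i φ = aeval (fun s => tCoord u v a0 1 0 s * algebraMap k K t ^ w s) R := by
      rw [h2, comp_aeval_apply]
      congr 2
      funext s
      rw [hi, mul_comm]
    have hU0 : i (u 0 / u 1) = algebraMap k K t * (u 0 / u 1) := by
      have := hi (Sum.inl ⟨0, by decide⟩)
      simpa [tCoord, hw] using this
    have hU : ∀ l : Fin 10, l ≠ 0 → i (u l / u 1) = u l / u 1 := by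
      intro l hl
      by_cases hl1 : l = 1
      · rw [hl1, div_self (h.u_ne 1), map_one]
      · have := hi (Sum.inl ⟨l, hl1⟩)
        simpa [tCoord, hw, hl] using this
    have hV : ∀ l : Fin 10, l ≠ 0 → i (u l / u 0) = u l / u 0 * (algebraMap k K t)⁻¹ := by
      intro l hl
      have e : ∀ l : Fin 10, u l / u 0 = (u l / u 1) / (u 0 / u 1) := by
        intro l
        rw [div_div_div_cancel_right₀ (h.u_ne 1)]
      rw [e l, map_div₀, hU0, hU l hl]
      have := h.u_ne 0
      have := h.u_ne 1
      field_simp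
    have e2 : i φ = aeval (fun s => y s * (algebraMap k K t)⁻¹ ^ 1) P := by
      rw [h1, comp_aeval_apply]
      congr 2
      funext s
      rcases s with l | s
      · simp only [hy, Sum.elim_inl, pow_one]
        exact hV l.1 l.2
      · simp [hy]
    rw [const_eval, const_eval (fun s => y s) (fun _ => 1), ← e1, ← e2]
  have h3 := poly_const k
    (aeval (fun s => Polynomial.C (y s) * Polynomial.X ^ 1) P : Polynomial K)
    (aeval (fun s => Polynomial.C (tCoord u v a0 1 0 s) * Polynomial.X ^ w s) R) (by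
      intro t ht
      have h4 := key t⁻¹ (inv_ne_zero ht)
      rw [map_inv₀, inv_inv] at h4
      exact h4.symm)
  rw [const_eval (fun s => y s) (fun _ => 1), const_eval (fun s => y s) (fun _ => 1)] at h3
  simp only [pow_one, mul_one, mul_zero] at h3
  rw [← h1] at h3
  rw [h3]
  exact aeval_zero' P

/-- T4.  `exists_poly` in the charts `(0; 1)`, `(0; 2)`, `(1; 0)` (`mem_vSet_of_tch`). -/
theorem const_of_regular (h : IsGenT k z u v a0) {φ : K} (hφ : ∀ A ∈ VSet k z, φ ∈ A) :
    ∃ c : k, φ = algebraMap k K c := by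
  have key : ∀ i j : Fin 10, i ≠ j →
      ∃ P : MvPolynomial (TVar i j) k, φ = aeval (tCoord u v a0 i j) P := fun i j hij =>
    exists_poly (h.indep_chart hij) (h.gen_chart hij) fun A hA he =>
      hφ A (mem_vSet_of_tch h hA hij ⟨h.u_ne i, h.plu_ne hij, he⟩)
  obtain ⟨P, hP⟩ := key 0 1 (by decide)
  obtain ⟨R, hR⟩ := key 0 2 (by decide)
  obtain ⟨Q, hQ⟩ := key 1 0 (by decide)
  exact ⟨_, const_step2 h (const_step1 h hP hR) hQ⟩

end MP9a7843
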