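import Pool.Agent.Lib.MP_9a7843_ag_T.Class
import Pool.Agent.Lib.MP_9a7843_ag_X.Pic

/-!
# MP_9a7843_ag, block T, module ExpC: the class lemma for both fields
-/

noncomputable section

open Classical

namespace MP9a7843

universe u

/-- The class lemma for `K_X` (block X) and `K_T` (block T). -/
theorem expClass (k : Type u) [Field k] [CharZero k] : ExpClass k := by
  intro L _ _ z h
  rcases h with h | ⟨u, v, a0, h⟩
  · exact classLemma_X h
  · exact classT h

end MP9a7843
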