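import Pool.Agent.Lib.MP_9a7843_ag_T.TwoB

/-!
# MP_9a7843_ag, block T, module OrdA: orders of `ξ` and `H` in the charts
-/

noncomputable section

open MvPolynomial Classical

namespace MP9a7843

variable {k : Type*} [Field k] [CharZero k] {K : Type*} [Field K] [Algebra k K] {z : Idx → K}
  {u v : Fin 10 → K} {a0 : K} {i j : Fin 10} {A B : ValuationSubring K}

private theorem oa_ord (hA : IsDVRof k A) {x y w : K} (hy : y ≠ 0) (hw : w ≠ 0) (h1 : w ∈ A)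
    (h2 : w⁻¹ ∈ A) (hx : x = y * w) : ord A y = ord A x := by
  rw [hx, hA.ord_mul hy hw, hA.ord_eq_of_val ((val_eq_one_iff hw).2 ⟨h1, h2⟩), add_zero]

private theorem oa_mem (h : IsGenT k z u v a0) (hA : IsDVRof k A) {i' j' : Fin 10} {m' : Fin 4}
    (hc : z (cellIdx i' j' m') ≠ 0) (hm : ∀ s, cellCoord z i' j' m' s ∈ A) (I : Idx) :
    z I / z (cellIdx i' j' m') ∈ A := by
  rw [← aeval_zC k h.rel hc I]
  exact aeval_mem hA.1 hm _

private theorem oa_ne (h : IsGenT k z u v a0) {i' j' : Fin 10} {m' : Fin 4}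
    (hc : z (cellIdx i' j' m') ≠ 0) : plu u v i' j' ≠ 0 := by
  obtain ⟨r, _, hz⟩ := h.eq
  intro h0
  apply hc
  rw [hz]
  change r * (_ * plu u v i' j') = 0
  rw [h0, mul_zero, mul_zero]

/-- The order of `ξ` does not depend on the cell, and can be computed in a chart.

Proof.  Let `F = cub u v ![a0, 0, 1, 0]`, `F' = F u_i / P_ij^2` (entries in `A`, `TCh.cub_mem`).  By
`exists_unit_g` some entry `F'_x` (`x = cubIdx i j m`) is a unit (`aeval_cubT`).  `z_I / z_c ∈ A`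
for
`c = (i', j', m')` and all `I` (`aeval_zC`, `aeval_mem`), so `F'_x / F'_y = F_x / F_y ∈ A` for
`y = cubIdx i' j' m'`, and `F'_y` is a unit of `A`.  The left side is the order of
`F_000 / F_y = F'_000 / F'_y`. -/
theorem ord_cub (h : IsGenT k z u v a0) (hA : IsDVRof k A) (hij : i ≠ j)
    (ht : TCh k u v a0 A i j) {i' j' : Fin 10} {m' : Fin 4} (hc : z (cellIdx i' j' m') ≠ 0)
    (hm : ∀ s, cellCoord z i' j' m' s ∈ A) :
    ord A (z ((0, 0, 0), (i', j')) / z (cellIdx i' j' m')) =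
      ord A (cub u v ![a0, 0, 1, 0] 0 0 0 * u i / plu u v i j ^ 2) := by
  obtain ⟨r, hr, hz⟩ := h.eq
  have hu := ht.1
  have hP := ht.2.1
  have hP' : plu u v i' j' ≠ 0 := oa_ne h hc
  obtain ⟨m, hg⟩ := exists_unit_g hA hij ht
  obtain ⟨y, hy⟩ : ∃ y, y = cubIdx i' j' m' := ⟨_, rfl⟩
  obtain ⟨x, hx⟩ : ∃ x, x = cubIdx i j m := ⟨_, rfl⟩
  obtain ⟨Fy, hFy⟩ : ∃ F, F = cub u v ![a0, 0, 1, 0] y.1 y.2.1 y.2.2 := ⟨_, rfl⟩
  obtain ⟨Fx, hFx⟩ : ∃ F, F = cub u v ![a0, 0, 1, 0] x.1 x.2.1 x.2.2 := ⟨_, rfl⟩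
  have hFy0 : Fy ≠ 0 := by
    rw [hFy]
    exact h.cub_ne _ _ _
  have hFx0 : Fx ≠ 0 := by
    rw [hFx]
    exact h.cub_ne _ _ _
  have e1 : z (cellIdx i' j' m') = r * (Fy * plu u v i' j') := by
    rw [hz, hFy, hy]
    rfl
  have e2 : z (x, (i', j')) = r * (Fx * plu u v i' j') := by
    rw [hz, hFx]
    rfl
  have e3 : z (cellIdx i j m) = r * (Fx * plu u v i j) := by
    rw [hz, hFx, hx]
    rfl
  have e4 : z ((0, 0, 0), (i', j')) = r * (cub u v ![a0, 0, 1, 0] 0 0 0 * plu u v i' j') := by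
    rw [hz]
    rfl
  have hgx : aeval (tCoord u v a0 i j) (gT k i j m) = Fx * u i / plu u v i j ^ 2 := by
    have e5 := cell_chart (k := k) hr hz hu hP m
    rw [e3] at e5
    field_simp at e5 ⊢
    linear_combination -e5
  rw [hgx] at hg
  have hg0 : Fx * u i / plu u v i j ^ 2 ≠ 0 :=
    div_ne_zero (mul_ne_zero hFx0 hu) (pow_ne_zero 2 hP)
  obtain ⟨-, hgi⟩ := (val_eq_one_iff hg0).1 hg
  refine oa_ord (w := Fy * u i / plu u v i j ^ 2) hA ?_ ?_ ?_ ?_ ?_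
  · rw [e4, e1]
    exact div_ne_zero (mul_ne_zero hr (mul_ne_zero (h.cub_ne _ _ _) hP'))
      (mul_ne_zero hr (mul_ne_zero hFy0 hP'))
  · exact div_ne_zero (mul_ne_zero hFy0 hu) (pow_ne_zero 2 hP)
  · rw [hFy]
    exact ht.cub_mem hA _ _ _
  · have e6 : (Fy * u i / plu u v i j ^ 2)⁻¹ =
        z (x, (i', j')) / z (cellIdx i' j' m') * (Fx * u i / plu u v i j ^ 2)⁻¹ := by
      rw [e1, e2]
      field_simp
    rw [e6]
    exact mul_mem (oa_mem h hA hc hm _) hgi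
  · rw [e1, e4]
    field_simp

/-- The order of `H` does not depend on the cell, and can be computed in a chart: the left side is
the
order of `P_01 / P_i'j'`; `P_i'j' / P_ij ∈ A` (`TCh.plu_mem`), `P_ij / P_i'j' ∈ A` (a cell
formula). -/
theorem ord_plu (h : IsGenT k z u v a0) (hA : IsDVRof k A) (hij : i ≠ j)
    (ht : TCh k u v a0 A i j) {i' j' : Fin 10} {m' : Fin 4} (hc : z (cellIdx i' j' m') ≠ 0)
    (hm : ∀ s, cellCoord z i' j' m' s ∈ A) :
    ord A (z (cubIdx i' j' m', (0, 1)) / z (cellIdx i' j' m')) =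
      ord A (plu u v 0 1 / plu u v i j) := by
  obtain ⟨r, hr, hz⟩ := h.eq
  have hP := ht.2.1
  have hP' : plu u v i' j' ≠ 0 := oa_ne h hc
  obtain ⟨Fy, hFy⟩ : ∃ F, F = cub u v ![a0, 0, 1, 0] (cubIdx i' j' m').1
    (cubIdx i' j' m').2.1 (cubIdx i' j' m').2.2 := ⟨_, rfl⟩
  have hFy0 : Fy ≠ 0 := by
    rw [hFy]
    exact h.cub_ne _ _ _
  have e1 : z (cellIdx i' j' m') = r * (Fy * plu u v i' j') := by
    rw [hz, hFy]
    rfl
  have e2 : ∀ d e, z (cubIdx i' j' m', (d, e)) = r * (Fy * plu u v d e) := by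
    intro d e
    rw [hz, hFy]
    rfl
  refine oa_ord (w := plu u v i' j' / plu u v i j) hA ?_ ?_ ?_ ?_ ?_
  · rw [e2, e1]
    exact div_ne_zero (mul_ne_zero hr (mul_ne_zero hFy0 h.plu01_ne))
      (mul_ne_zero hr (mul_ne_zero hFy0 hP'))
  · exact div_ne_zero hP' hP
  · exact ht.plu_mem hA _ _
  · have e3 : (plu u v i' j' / plu u v i j)⁻¹ =
        z (cubIdx i' j' m', (i, j)) / z (cellIdx i' j' m') := by
      rw [e1, e2]
      field_simp
    rw [e3]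
    exact oa_mem h hA hc hm _
  · rw [e1, e2]
    field_simp

end MP9a7843
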