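import Pool.Agent.Lib.MP_9a7843_ag_T.Chart

/-!
# MP_9a7843_ag, block T, module Root: cells and charts; the root of the generic cubic

`β = u_j / u_i` is a root of the cubic `-G_0 β^3 + 3 G_1 β^2 - 3 G_2 β + G_3 = 0` (`G = cellG z i j
m`),
and the chart coordinates are rational functions of `β` and the coordinates of the cell `(i, j, m)`.
-/

noncomputable section

open MvPolynomial Classical

namespace MP9a7843

/-- Change of the basis of the plane: `u = E + β E'`, `p = E'`. (`funext`, `simp [zfun, cub, plu]`,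
`ring`.) -/
theorem zfun_shift {R : Type*} [CommRing R] (u p : Fin 10 → R) (a b β : R) (I : Idx) :
    zfun u (fun l => b * u l + p l) ![a, 0, 1, 0] I =
      zfun (fun l => u l - β * p l) p
        ![a + 3 * b ^ 2, (a + 3 * b ^ 2) * β + 2 * b, (a + 3 * b ^ 2) * β ^ 2 + 4 * b * β + 1,
          (a + 3 * b ^ 2) * β ^ 3 + 6 * b * β ^ 2 + 3 * β] I := by
  obtain ⟨⟨a1, a2, a3⟩, ⟨d, e⟩⟩ := I
  simp only [zfun, cub, plu, Matrix.cons_val_zero, Matrix.cons_val_one, Matrix.cons_val]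
  ring

section

variable {K : Type*} [Field K] {z : Idx → K} {i j : Fin 10} {m : Fin 4}

/-- The cell coordinates of a point given by a normalised basis. -/
theorem cell_of_zfun {s : K} {E E' : Fin 10 → K} {g : Fin 4 → K} (hs : s ≠ 0)
    (hz : ∀ I, z I = s * zfun E E' g I) (h1 : E i = 1) (h2 : E j = 0) (h3 : E' i = 0)
    (h4 : E' j = 1) (m : Fin 4) :
    z (cellIdx i j m) = s * g m ∧ (g m ≠ 0 → cellE z i j m = E ∧ cellE' z i j m = E' ∧
      ∀ m', cellG z i j m m' = g m' / g m) := by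
  have key : ∀ (m' : Fin 4) (d e : Fin 10),
      z (cubIdx i j m', (d, e)) = s * (g m' * plu E E' d e) := by
    intro m' d e
    rw [hz]
    have hcub : cub E E' g (cubIdx i j m').1 (cubIdx i j m').2.1 (cubIdx i j m').2.2 = g m' := by
      fin_cases m' <;> simp [cub, cubIdx, h1, h2, h3, h4]
    simp only [zfun, hcub]
  have hpl : ∀ l, plu E E' l j = E l := fun l => by simp [plu, h2, h4]
  have hpl' : ∀ l, plu E E' i l = E' l := fun l => by simp [plu, h1, h3]
  have hc : ∀ m' : Fin 4, z (cubIdx i j m', (i, j)) = s * g m' := by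
    intro m'
    rw [key, hpl, h1, mul_one]
  refine ⟨hc m, fun hg => ?_⟩
  have hsg : s * g m ≠ 0 := mul_ne_zero hs hg
  have hcm : z (cellIdx i j m) = s * g m := hc m
  refine ⟨?_, ?_, ?_⟩
  · funext l
    rw [cellE, hcm, key, hpl]
    field_simp
  · funext l
    rw [cellE', hcm, key, hpl']
    field_simp
  · intro m'
    rw [cellG, hcm, hc m', mul_div_mul_left _ _ hs]

end

section

variable {k : Type*} [Field k] {K : Type*} [Field K] [Algebra k K] {z : Idx → K}
  {u v : Fin 10 → K} {a0 r : K} {i j : Fin 10} {m : Fin 4}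

private theorem aeval_gT_fun (hu : u i ≠ 0) :
    (fun m => aeval (tCoord u v a0 i j) (gT k i j m)) =
      ![a0 * u i ^ 4 / plu u v i j ^ 2 + 3 * (v i * u i / plu u v i j) ^ 2,
        (a0 * u i ^ 4 / plu u v i j ^ 2 + 3 * (v i * u i / plu u v i j) ^ 2) * (u j / u i) +
          2 * (v i * u i / plu u v i j),
        (a0 * u i ^ 4 / plu u v i j ^ 2 + 3 * (v i * u i / plu u v i j) ^ 2) * (u j / u i) ^ 2 +
          4 * (v i * u i / plu u v i j) * (u j / u i) + 1,
        (a0 * u i ^ 4 / plu u v i j ^ 2 + 3 * (v i * u i / plu u v i j) ^ 2) * (u j / u i) ^ 3 +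
          6 * (v i * u i / plu u v i j) * (u j / u i) ^ 2 + 3 * (u j / u i)] := by
  have hps : aeval (tCoord u v a0 i j) (psT k i j) =
      a0 * u i ^ 4 / plu u v i j ^ 2 + 3 * (v i * u i / plu u v i j) ^ 2 := by
    rw [psT, map_add, map_mul, map_pow, aeval_aT, aeval_bT, map_ofNat]
  funext m
  fin_cases m
  · simp only [gT, Fin.zero_eta, Matrix.cons_val_zero, hps]
  · simp only [gT, Fin.mk_one, Matrix.cons_val_one, Matrix.cons_val_zero, map_add, map_mul, hps,
      aeval_uT hu, aeval_bT, map_ofNat]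
  · simp only [gT, Fin.reduceFinMk, Matrix.cons_val, map_add, map_mul, map_pow, map_one, hps,
      aeval_uT hu, aeval_bT, map_ofNat]
  · simp only [gT, Fin.reduceFinMk, Matrix.cons_val, map_add, map_mul, map_pow, hps,
      aeval_uT hu, aeval_bT, map_ofNat]

/-- The cells in the chart: `z = s zfun (U - β p) p g` with `s = r P_ij^3 / u_i` and
`g = aeval (tCoord u v a0 i j) gT` (`zfun_shift`; `u = u_i U`, `v = (P_ij/u_i) V`). -/
theorem z_chart (hz : ∀ I, z I = r * zfun u v ![a0, 0, 1, 0] I) (hu : u i ≠ 0)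
    (hP : plu u v i j ≠ 0) (I : Idx) :
    z I = (r * plu u v i j ^ 3 / u i) *
      zfun (fun l => u l / u i - u j / u i * (plu u v i l / plu u v i j))
        (fun l => plu u v i l / plu u v i j)
        (fun m => aeval (tCoord u v a0 i j) (gT k i j m)) I := by
  have hv : ∀ l, v l = plu u v i j / u i *
      (v i * u i / plu u v i j * (u l / u i) + plu u v i l / plu u v i j) := by
    intro l
    have e1 : plu u v i l = u i * v l - u l * v i := rfl
    rw [e1]
    field_simp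
    ring
  have hU : ∀ l, u l = u i * (u l / u i) := fun l => by field_simp
  have hs := zfun_shift (fun l => u l / u i) (fun l => plu u v i l / plu u v i j)
    (a0 * u i ^ 4 / plu u v i j ^ 2) (v i * u i / plu u v i j) (u j / u i) I
  rw [aeval_gT_fun hu]
  rw [← hs, hz]
  have h3 : zfun u v ![a0, 0, 1, 0] I = plu u v i j ^ 3 / u i *
      zfun (fun l => u l / u i)
        (fun l => v i * u i / plu u v i j * (u l / u i) + plu u v i l / plu u v i j)
        ![a0 * u i ^ 4 / plu u v i j ^ 2, 0, 1, 0] I := by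
    have gen : ∀ (c P : K) (U V : Fin 10 → K), c ≠ 0 → P ≠ 0 → (∀ l, u l = c * U l) →
        (∀ l, v l = P / c * V l) → zfun u v ![a0, 0, 1, 0] I =
          P ^ 3 / c * zfun U V ![a0 * c ^ 4 / P ^ 2, 0, 1, 0] I := by
      intro c P U V hc hP' h1 h2
      obtain ⟨⟨a1, a2, a3⟩, ⟨d, e⟩⟩ := I
      simp only [zfun, cub, plu, h1, h2, Matrix.cons_val_zero, Matrix.cons_val_one,
        Matrix.cons_val]
      field_simp
      ring
    exact gen _ _ _ _ hu hP hU hv
  rw [h3]
  ring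

private theorem chart_all (hr : r ≠ 0) (hz : ∀ I, z I = r * zfun u v ![a0, 0, 1, 0] I)
    (hu : u i ≠ 0) (hP : plu u v i j ≠ 0) (m : Fin 4) :
    z (cellIdx i j m) = (r * plu u v i j ^ 3 / u i) *
      aeval (tCoord u v a0 i j) (gT k i j m) ∧
    (aeval (tCoord u v a0 i j) (gT k i j m) ≠ 0 →
      cellE z i j m = (fun l => u l / u i - u j / u i * (plu u v i l / plu u v i j)) ∧
      cellE' z i j m = (fun l => plu u v i l / plu u v i j) ∧
      ∀ m', cellG z i j m m' = aeval (tCoord u v a0 i j) (gT k i j m') /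
        aeval (tCoord u v a0 i j) (gT k i j m)) := by
  have hs : r * plu u v i j ^ 3 / u i ≠ 0 := div_ne_zero (mul_ne_zero hr (pow_ne_zero _ hP)) hu
  have hii : plu u v i i = 0 := by simp [plu]
  exact cell_of_zfun hs (z_chart (k := k) hz hu hP)
    (by simp [hii, hu]) (by simp [hP]) (by simp [hii]) (by simp [hP]) m

theorem cell_chart (hr : r ≠ 0) (hz : ∀ I, z I = r * zfun u v ![a0, 0, 1, 0] I) (hu : u i ≠ 0)
    (hP : plu u v i j ≠ 0) (m : Fin 4) :
    z (cellIdx i j m) = (r * plu u v i j ^ 3 / u i) * aeval (tCoord u v a0 i j) (gT k i j m) := by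
  exact (chart_all (k := k) hr hz hu hP m).1

theorem gT_ne (hr : r ≠ 0) (hz : ∀ I, z I = r * zfun u v ![a0, 0, 1, 0] I) (hu : u i ≠ 0)
    (hP : plu u v i j ≠ 0) (hc : z (cellIdx i j m) ≠ 0) :
    aeval (tCoord u v a0 i j) (gT k i j m) ≠ 0 := by
  intro h0
  apply hc
  rw [cell_chart (k := k) hr hz hu hP m, h0, mul_zero]

theorem cellE_chart (hr : r ≠ 0) (hz : ∀ I, z I = r * zfun u v ![a0, 0, 1, 0] I) (hu : u i ≠ 0)
    (hP : plu u v i j ≠ 0) (hc : z (cellIdx i j m) ≠ 0) (l : Fin 10) :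
    cellE z i j m l = u l / u i - u j / u i * (plu u v i l / plu u v i j) := by
  exact congrFun ((chart_all (k := K) hr hz hu hP m).2 (gT_ne (k := K) hr hz hu hP hc)).1 l

theorem cellE'_chart (hr : r ≠ 0) (hz : ∀ I, z I = r * zfun u v ![a0, 0, 1, 0] I) (hu : u i ≠ 0)
    (hP : plu u v i j ≠ 0) (hc : z (cellIdx i j m) ≠ 0) (l : Fin 10) :
    cellE' z i j m l = plu u v i l / plu u v i j := by
  exact congrFun ((chart_all (k := K) hr hz hu hP m).2 (gT_ne (k := K) hr hz hu hP hc)).2.1 l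

theorem cellG_chart (hr : r ≠ 0) (hz : ∀ I, z I = r * zfun u v ![a0, 0, 1, 0] I) (hu : u i ≠ 0)
    (hP : plu u v i j ≠ 0) (hc : z (cellIdx i j m) ≠ 0) (m' : Fin 4) :
    cellG z i j m m' = aeval (tCoord u v a0 i j) (gT k i j m') /
      aeval (tCoord u v a0 i j) (gT k i j m) := by
  exact ((chart_all (k := k) hr hz hu hP m).2 (gT_ne (k := k) hr hz hu hP hc)).2.2 m'

/-- The values of the cell coefficients in terms of `ψ, b, β`. -/
private theorem gdata (hr : r ≠ 0) (hz : ∀ I, z I = r * zfun u v ![a0, 0, 1, 0] I) (hu : u i ≠ 0)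
    (hP : plu u v i j ≠ 0) (hc : z (cellIdx i j m) ≠ 0) :
    ∃ (g : Fin 4 → K) (b ps : K), g m ≠ 0 ∧ g 0 = ps ∧ g 1 = ps * (u j / u i) + 2 * b ∧
      g 2 = ps * (u j / u i) ^ 2 + 4 * b * (u j / u i) + 1 ∧
      g 3 = ps * (u j / u i) ^ 3 + 6 * b * (u j / u i) ^ 2 + 3 * (u j / u i) ∧
      (∀ m', cellG z i j m m' = g m' / g m) ∧ b = v i * u i / plu u v i j ∧
      (g = fun m' => aeval (tCoord u v a0 i j) (gT k i j m')) ∧
      ps = a0 * u i ^ 4 / plu u v i j ^ 2 + 3 * b ^ 2 := by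
  refine ⟨fun m' => aeval (tCoord u v a0 i j) (gT k i j m'), v i * u i / plu u v i j,
    a0 * u i ^ 4 / plu u v i j ^ 2 + 3 * (v i * u i / plu u v i j) ^ 2,
    gT_ne (k := k) hr hz hu hP hc, ?_, ?_, ?_, ?_,
    fun m' => ((chart_all (k := k) hr hz hu hP m).2 (gT_ne (k := k) hr hz hu hP hc)).2.2 m', rfl,
    rfl, rfl⟩
  · exact congrFun (aeval_gT_fun (k := k) hu) 0
  · exact congrFun (aeval_gT_fun (k := k) hu) 1
  · exact congrFun (aeval_gT_fun (k := k) hu) 2
  · exact congrFun (aeval_gT_fun (k := k) hu) 3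

/-- The root equation. (With `g = aeval _ gT` in terms of `ψ, b, β`:
`-g0 β^3 + 3 g1 β^2 - 3 g2 β + g3 = 0` is an identity; divide by `g m`.) -/
theorem root_eq (hr : r ≠ 0) (hz : ∀ I, z I = r * zfun u v ![a0, 0, 1, 0] I) (hu : u i ≠ 0)
    (hP : plu u v i j ≠ 0) (hc : z (cellIdx i j m) ≠ 0) :
    -cellG z i j m 0 * (u j / u i) ^ 3 + 3 * cellG z i j m 1 * (u j / u i) ^ 2 -
      3 * cellG z i j m 2 * (u j / u i) + cellG z i j m 3 = 0 := by
  obtain ⟨g, b, ps, h0, e0, e1, e2, e3, eG, -, -⟩ := gdata (k := K) hr hz hu hP hc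
  rw [eG, eG, eG, eG, e0, e1, e2, e3]
  field_simp
  ring

/-- `g0 β^2 - 2 g1 β + g2 = 1` is an identity. -/
theorem c2_eq (hr : r ≠ 0) (hz : ∀ I, z I = r * zfun u v ![a0, 0, 1, 0] I) (hu : u i ≠ 0)
    (hP : plu u v i j ≠ 0) (hc : z (cellIdx i j m) ≠ 0) :
    cellG z i j m 0 * (u j / u i) ^ 2 - 2 * cellG z i j m 1 * (u j / u i) + cellG z i j m 2 =
      (aeval (tCoord u v a0 i j) (gT k i j m))⁻¹ := by
  obtain ⟨g, b, ps, h0, e0, e1, e2, e3, eG, -, hg, -⟩ := gdata (k := k) hr hz hu hP hc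
  rw [← congrFun hg m, eG, eG, eG, e0, e1, e2]
  field_simp
  ring

/-- `g1 - g0 β = 2 b`. -/
theorem b_eq (hr : r ≠ 0) (hz : ∀ I, z I = r * zfun u v ![a0, 0, 1, 0] I) (hu : u i ≠ 0)
    (hP : plu u v i j ≠ 0) (hc : z (cellIdx i j m) ≠ 0) (h2 : (2 : K) ≠ 0) :
    v i * u i / plu u v i j = (cellG z i j m 1 - cellG z i j m 0 * (u j / u i)) /
      (2 * (cellG z i j m 0 * (u j / u i) ^ 2 - 2 * cellG z i j m 1 * (u j / u i) +
        cellG z i j m 2)) := by
  obtain ⟨g, b, ps, h0, e0, e1, e2, e3, eG, hb, -, -⟩ := gdata (k := K) hr hz hu hP hc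
  have hd : cellG z i j m 0 * (u j / u i) ^ 2 - 2 * cellG z i j m 1 * (u j / u i) +
      cellG z i j m 2 = (g m)⁻¹ := by
    rw [eG, eG, eG, e0, e1, e2]
    generalize u j / u i = β
    field_simp
    ring
  rw [hd, ← hb, eG, eG, e0, e1]
  generalize u j / u i = β
  field_simp
  ring

/-- `ψ = g0`, `a = ψ - 3 b^2`. -/
theorem a_eq (hr : r ≠ 0) (hz : ∀ I, z I = r * zfun u v ![a0, 0, 1, 0] I) (hu : u i ≠ 0)
    (hP : plu u v i j ≠ 0) (hc : z (cellIdx i j m) ≠ 0) :
    a0 * u i ^ 4 / plu u v i j ^ 2 = cellG z i j m 0 /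
      (cellG z i j m 0 * (u j / u i) ^ 2 - 2 * cellG z i j m 1 * (u j / u i) +
        cellG z i j m 2) - 3 * (v i * u i / plu u v i j) ^ 2 := by
  obtain ⟨g, b, ps, h0, e0, e1, e2, e3, eG, hb, -, hps⟩ := gdata (k := K) hr hz hu hP hc
  have hd : cellG z i j m 0 * (u j / u i) ^ 2 - 2 * cellG z i j m 1 * (u j / u i) +
      cellG z i j m 2 = (g m)⁻¹ := by
    rw [eG, eG, eG, e0, e1, e2]
    generalize u j / u i = β
    field_simp
    ring
  rw [hd, ← hb, eG, e0, div_inv_eq_mul, div_mul_cancel₀ _ h0, hps]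
  ring

/-- `U = E + β E'`. -/
theorem U_eq (hr : r ≠ 0) (hz : ∀ I, z I = r * zfun u v ![a0, 0, 1, 0] I) (hu : u i ≠ 0)
    (hP : plu u v i j ≠ 0) (hc : z (cellIdx i j m) ≠ 0) (l : Fin 10) :
    u l / u i = cellE z i j m l + u j / u i * cellE' z i j m l := by
  rw [cellE_chart hr hz hu hP hc, cellE'_chart hr hz hu hP hc]
  ring

/-- Differentiation of the root equation. -/
theorem der_root (hr : r ≠ 0) (hz : ∀ I, z I = r * zfun u v ![a0, 0, 1, 0] I) (hu : u i ≠ 0)
    (hP : plu u v i j ≠ 0) (hc : z (cellIdx i j m) ≠ 0) (δ : Derivation k K K) :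
    3 * (cellG z i j m 0 * (u j / u i) ^ 2 - 2 * cellG z i j m 1 * (u j / u i) +
        cellG z i j m 2) * δ (u j / u i) =
      -(u j / u i) ^ 3 * δ (cellG z i j m 0) + 3 * (u j / u i) ^ 2 * δ (cellG z i j m 1) -
        3 * (u j / u i) * δ (cellG z i j m 2) + δ (cellG z i j m 3) := by
  have h := congrArg δ (root_eq hr hz hu hP hc)
  simp only [map_add, map_sub, map_neg, map_zero, Derivation.leibniz, Derivation.leibniz_pow,
    smul_eq_mul, nsmul_eq_mul, Nat.cast_ofNat, Nat.add_one_sub_one, pow_one] at h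
  have h3 : δ (3 : K) = 0 := by
    have := δ.map_natCast 3
    exact_mod_cast this
  rw [h3] at h
  linear_combination -h

end

end MP9a7843
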