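import Pool.Agent.Lib.MP_9a7843_ag_X.Rel

/-!
# MP_9a7843_ag, block T, module Swap: exchange of the two basis vectors of a cell
-/

noncomputable section

open MvPolynomial Classical

namespace MP9a7843

variable {k : Type*} [Field k] {K : Type*} [Field K] [Algebra k K] {z : Idx → K}
  {i j : Fin 10} {m : Fin 4} {A : ValuationSubring K}

private lemma cub_swap (h : Rel z) (i j : Fin 10) (m : Fin 4) (P : Fin 10 × Fin 10) :
    z (cubIdx j i m.rev, P) = z (cubIdx i j m, P) := by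
  fin_cases m
  · rfl
  · change z ((j, i, i), P) = z ((i, i, j), P)
    rw [h.sym1, h.sym2]
  · change z ((j, j, i), P) = z ((i, j, j), P)
    rw [h.sym2, h.sym1]
  · rfl

private lemma cellE'_swap (h : Rel z) (i j : Fin 10) (m : Fin 4) (l : Fin 10) :
    cellE' z j i m.rev l = cellE z i j m l := by
  unfold cellE cellE'
  rw [cell_swap h i j m, cub_swap h i j m, h.alt _ j l, neg_div_neg_eq]

private lemma cellE_swap (h : Rel z) (i j : Fin 10) (m : Fin 4) (l : Fin 10) :
    cellE z j i m.rev l = cellE' z i j m l := by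
  unfold cellE cellE'
  rw [cell_swap h i j m, cub_swap h i j m, h.alt _ l i, neg_div_neg_eq]

private lemma cellG_swap (h : Rel z) (i j : Fin 10) (m m' : Fin 4) :
    cellG z j i m.rev m'.rev = cellG z i j m m' := by
  unfold cellG
  rw [cell_swap h i j m, cub_swap h i j m', h.alt _ j i, neg_div_neg_eq]

/-- Exchange of the two basis vectors: every coordinate of the cell `(i, j, m)` is a coordinate of
the
cell `(j, i, 3 - m)` (`E ↔ E'`, `γ_m' ↔ γ_(3-m')`; `Rel.sym1`, `Rel.sym2`, `Rel.alt`, `cell_swap`).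
-/
theorem cellCoord_swap (h : Rel z) (s : CellVar i j m) :
    ∃ s' : CellVar j i m.rev, cellCoord z i j m s = cellCoord z j i m.rev s' := by
  rcases s with l | l | m'
  · exact ⟨Sum.inr (Sum.inl ⟨l.1, l.2.2, l.2.1⟩), (cellE'_swap h i j m l.1).symm⟩
  · exact ⟨Sum.inl ⟨l.1, l.2.2, l.2.1⟩, (cellE_swap h i j m l.1).symm⟩
  · exact ⟨Sum.inr (Sum.inr ⟨m'.1.rev, fun hh => m'.2 (Fin.rev_injective hh)⟩),
      (cellG_swap h i j m m'.1).symm⟩

theorem cellCoord_swap' (h : Rel z) (s' : CellVar j i m.rev) :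
    ∃ s : CellVar i j m, cellCoord z j i m.rev s' = cellCoord z i j m s := by
  rcases s' with l | l | m'
  · exact ⟨Sum.inr (Sum.inl ⟨l.1, l.2.2, l.2.1⟩), cellE_swap h i j m l.1⟩
  · exact ⟨Sum.inl ⟨l.1, l.2.2, l.2.1⟩, cellE'_swap h i j m l.1⟩
  · refine ⟨Sum.inr (Sum.inr ⟨m'.1.rev, fun hh =>
      m'.2 ((Fin.rev_rev m'.1).symm.trans (congrArg Fin.rev hh))⟩), ?_⟩
    have h1 := cellG_swap h i j m m'.1.rev
    rw [Fin.rev_rev] at h1
    exact h1

theorem etaleAt_swap (h : Rel z) (he : EtaleAt k A (cellCoord z i j m)) :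
    EtaleAt k A (cellCoord z j i m.rev) := by
  refine ⟨fun s' => ?_, fun δ hδ a ha => ?_⟩
  · obtain ⟨s, hs⟩ := cellCoord_swap' h s'
    rw [hs]
    exact he.1 s
  · refine he.2 δ (fun s => ?_) a ha
    obtain ⟨s', hs'⟩ := cellCoord_swap h s
    rw [hs']
    exact hδ s'

end MP9a7843
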