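import Pool.Agent.Lib.MP_9a7843_ag_T.CellT
import Pool.Agent.Lib.MP_9a7843_ag_T.Swap
import Pool.Agent.Lib.MP_9a7843_ag_D.Ord

/-!
# MP_9a7843_ag, block T, module TwoB: a discrete valuation ring of the function field of `T` which
is
etale over a chart of `T` is etale over a cell of `X`
-/

noncomputable section

open MvPolynomial Classical

namespace MP9a7843

variable {k : Type*} [Field k] [CharZero k] {K : Type*} [Field K] [Algebra k K] {z : Idx → K}
  {u v : Fin 10 → K} {a0 : K} {i j : Fin 10} {m : Fin 4} {A : ValuationSubring K}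

/-- In a chart one of `g_0, g_1, g_2` is a unit of `A`: otherwise `2 b = g_1 - β g_0` and
`g_2 = ψ β^2 + 4 b β + 1` are in the maximal ideal, contradiction. -/
theorem exists_unit_g (hA : IsDVRof k A) (hij : i ≠ j) (h : TCh k u v a0 A i j) :
    ∃ m : Fin 4, A.valuation (aeval (tCoord u v a0 i j) (gT k i j m)) = 1 := by
  by_contra hcon
  push Not at hcon
  have hg : ∀ m : Fin 4, A.valuation (aeval (tCoord u v a0 i j) (gT k i j m)) < 1 := fun m =>
    lt_of_le_of_ne ((A.valuation_le_one_iff _).2 (aeval_mem hA.1 h.2.2.1 _)) (hcon m)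
  have hβ : aeval (tCoord u v a0 i j) (uT k i j j) ∈ A := aeval_mem hA.1 h.2.2.1 _
  have h1 : (1 : K) = aeval (tCoord u v a0 i j) (gT k i j 2) -
      2 * aeval (tCoord u v a0 i j) (uT k i j j) * aeval (tCoord u v a0 i j) (gT k i j 1) +
      aeval (tCoord u v a0 i j) (uT k i j j) ^ 2 * aeval (tCoord u v a0 i j) (gT k i j 0) := by
    have e0 : gT k i j 0 = psT k i j := rfl
    have e1 : gT k i j 1 = psT k i j * uT k i j j + 2 * bT k i j := rfl
    have e2 : gT k i j 2 = psT k i j * uT k i j j ^ 2 + 4 * bT k i j * uT k i j j + 1 := rfl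
    rw [e0, e1, e2]
    simp only [map_add, map_mul, map_pow, map_one, map_ofNat]
    ring
  have h2 : (2 : K) ∈ A := by
    have := add_mem A.one_mem A.one_mem
    rwa [one_add_one_eq_two] at this
  have hmul : ∀ x y : K, x ∈ A → A.valuation y < 1 → A.valuation (x * y) < 1 := by
    intro x y hx hy
    rw [map_mul]
    exact mul_lt_one_of_nonneg_of_lt_one_right ((A.valuation_le_one_iff _).2 hx) zero_le hy
  have h3 : A.valuation (1 : K) < 1 := by
    rw [h1]
    exact Valuation.map_add_lt _ (Valuation.map_sub_lt _ (hg 2)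
      (hmul _ _ (mul_mem h2 hβ) (hg 1))) (hmul _ _ (pow_mem hβ 2) (hg 0))
  rw [map_one] at h3
  exact lt_irrefl _ h3

/-- T2', with the cell.

Proof.  The cell coordinates are in `A` (`cellE_chart`, `cellE'_chart`, `cellG_chart`).  Let `δ` map
them into `A`.  `c2 = g_m⁻¹` is a unit of `A`, so `δ β ∈ A` by `der_root`.  By `U_eq`,
`cellE'_chart`, `b_eq`, `a_eq` (denominators `2 c2`, `c2`) `δ` maps the chart coordinates into `A`;
`EtaleAt.transfer'`. -/
theorem etale_cell_of_tch (h : IsGenT k z u v a0) (hA : IsDVRof k A) (hij : i ≠ j)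
    (ht : TCh k u v a0 A i j)
    (hm : A.valuation (aeval (tCoord u v a0 i j) (gT k i j m)) = 1) :
    EtaleAt k A (cellCoord z i j m) := by
  obtain ⟨r, hr, hz⟩ := h.eq
  obtain ⟨hu, hP, hE⟩ := ht
  have hc := h.cell_ne hij m
  have hrel := h.rel
  have hg0 := gT_ne (k := k) hr hz hu hP hc
  obtain ⟨hg, hg'⟩ := (val_eq_one_iff hg0).1 hm
  have hgm : ∀ m', aeval (tCoord u v a0 i j) (gT k i j m') ∈ A := fun m' =>
    aeval_mem hA.1 hE.1 _
  have hU : ∀ l, u l / u i ∈ A := fun l => TCh.u_mem hA ⟨hu, hP, hE⟩ l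
  have hp : ∀ l, plu u v i l / plu u v i j ∈ A := fun l => TCh.plu_mem hA ⟨hu, hP, hE⟩ i l
  have hβ := hU j
  have hcE : ∀ l, cellE z i j m l ∈ A := by
    intro l
    rw [cellE_chart hr hz hu hP hc]
    exact sub_mem (hU l) (mul_mem hβ (hp l))
  have hcE' : ∀ l, cellE' z i j m l ∈ A := by
    intro l
    rw [cellE'_chart hr hz hu hP hc]
    exact hp l
  have hcG : ∀ m', cellG z i j m m' ∈ A := by
    intro m'
    rw [cellG_chart (k := k) hr hz hu hP hc, div_eq_mul_inv]
    exact mul_mem (hgm m') hg'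
  refine EtaleAt.transfer' hE ?_ ?_
  · rintro (l | l | m')
    · exact hcE l.1
    · exact hcE' l.1
    · exact hcG m'.1
  intro δ hδ
  have h2 : (2 : K) ∈ A := by
    have := hA.1 2
    rwa [map_ofNat] at this
  have h2' : (2 : K)⁻¹ ∈ A := by
    have := hA.1 2⁻¹
    rwa [map_inv₀, map_ofNat] at this
  have h3 : (3 : K) ∈ A := by
    have := hA.1 3
    rwa [map_ofNat] at this
  have h3' : (3 : K)⁻¹ ∈ A := by
    have := hA.1 3⁻¹
    rwa [map_inv₀, map_ofNat] at this
  have hδ0 : ∀ n : ℕ, δ (n : K) = 0 := fun n => by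
    have := δ.map_natCast n
    exact this
  have hdE : ∀ l, δ (cellE z i j m l) ∈ A := by
    intro l
    by_cases hl : l ≠ i ∧ l ≠ j
    · exact hδ (Sum.inl ⟨l, hl⟩)
    · by_cases hli : l = i
      · rw [hli, cellE_left hc, Derivation.map_one_eq_zero]
        exact zero_mem A
      · have hlj : l = j := by
          by_contra h4
          exact hl ⟨hli, h4⟩
        rw [hlj, cellE_right hrel, map_zero]
        exact zero_mem A
  have hdE' : ∀ l, δ (cellE' z i j m l) ∈ A := by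
    intro l
    by_cases hl : l ≠ i ∧ l ≠ j
    · exact hδ (Sum.inr (Sum.inl ⟨l, hl⟩))
    · by_cases hli : l = i
      · rw [hli, cellE'_left hrel, map_zero]
        exact zero_mem A
      · have hlj : l = j := by
          by_contra h4
          exact hl ⟨hli, h4⟩
        rw [hlj, cellE'_right hc, Derivation.map_one_eq_zero]
        exact zero_mem A
  have hdG : ∀ m', δ (cellG z i j m m') ∈ A := by
    intro m'
    by_cases hm' : m' ≠ m
    · exact hδ (Sum.inr (Sum.inr ⟨m', hm'⟩))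
    · push Not at hm'
      rw [hm', cellG_self hc, Derivation.map_one_eq_zero]
      exact zero_mem A
  have hc2 := c2_eq (k := k) hr hz hu hP hc
  have hc2i : (cellG z i j m 0 * (u j / u i) ^ 2 - 2 * cellG z i j m 1 * (u j / u i) +
      cellG z i j m 2)⁻¹ ∈ A := by
    rw [hc2, inv_inv]
    exact hg
  have hc20 : cellG z i j m 0 * (u j / u i) ^ 2 - 2 * cellG z i j m 1 * (u j / u i) +
      cellG z i j m 2 ≠ 0 := by
    rw [hc2]
    exact inv_ne_zero hg0
  have hroot := der_root (k := k) hr hz hu hP hc δ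
  have hdβ : δ (u j / u i) ∈ A := by
    have h30 : (3 : K) ≠ 0 := by
      have h4 : algebraMap k K 3 ≠ 0 := (map_ne_zero _).2 three_ne_zero
      rwa [map_ofNat] at h4
    have h5 : ∀ c d : K, c ≠ 0 → d = 3⁻¹ * c⁻¹ * (3 * c * d) := fun c d hc' => by
      field_simp
    rw [h5 _ (δ (u j / u i)) hc20, hroot]
    refine mul_mem (mul_mem h3' hc2i) ?_
    refine add_mem (sub_mem (add_mem (mul_mem (neg_mem (pow_mem hβ 3)) (hdG 0)) ?_) ?_) (hdG 3)
    · exact mul_mem (mul_mem h3 (pow_mem hβ 2)) (hdG 1)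
    · exact mul_mem (mul_mem h3 hβ) (hdG 2)
  have hdmul : ∀ x y : K, x ∈ A → y ∈ A → δ x ∈ A → δ y ∈ A → δ (x * y) ∈ A := by
    intro x y hx hy hdx hdy
    rw [Derivation.leibniz, smul_eq_mul, smul_eq_mul]
    exact add_mem (mul_mem hx hdy) (mul_mem hy hdx)
  have hd2 : δ (2 : K) ∈ A := by
    have := hδ0 2
    rw [Nat.cast_ofNat] at this
    rw [this]
    exact zero_mem A
  have hd3 : δ (3 : K) ∈ A := by
    have := hδ0 3
    rw [Nat.cast_ofNat] at this
    rw [this]
    exact zero_mem A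
  have hβ2 : (u j / u i) ^ 2 ∈ A := pow_mem hβ 2
  have hdβ2 : δ ((u j / u i) ^ 2) ∈ A := by
    rw [pow_two]
    exact hdmul _ _ hβ hβ hdβ hdβ
  have hdc2 : δ (cellG z i j m 0 * (u j / u i) ^ 2 - 2 * cellG z i j m 1 * (u j / u i) +
      cellG z i j m 2) ∈ A := by
    rw [map_add, map_sub]
    refine add_mem (sub_mem (hdmul _ _ (hcG 0) hβ2 (hdG 0) hdβ2) ?_) (hdG 2)
    exact hdmul _ _ (mul_mem h2 (hcG 1)) hβ (hdmul _ _ h2 (hcG 1) hd2 (hdG 1)) hdβ
  have h20 : (2 : K) ≠ 0 := by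
    have h4 : algebraMap k K 2 ≠ 0 := (map_ne_zero _).2 two_ne_zero
    rwa [map_ofNat] at h4
  have hb : v i * u i / plu u v i j ∈ A := hE.1 (Sum.inr (Sum.inr 0))
  have hdb : δ (v i * u i / plu u v i j) ∈ A := by
    rw [b_eq hr hz hu hP hc h20]
    refine der_div_mem (sub_mem (hcG 1) (mul_mem (hcG 0) hβ)) ?_ ?_ ?_
    · rw [mul_inv]
      exact mul_mem h2' hc2i
    · rw [map_sub]
      exact sub_mem (hdG 1) (hdmul _ _ (hcG 0) hβ (hdG 0) hdβ)
    · refine hdmul _ _ h2 ?_ hd2 hdc2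
      rw [hc2]
      exact hg'
  have hda : δ (a0 * u i ^ 4 / plu u v i j ^ 2) ∈ A := by
    rw [a_eq hr hz hu hP hc, map_sub]
    refine sub_mem (der_div_mem (hcG 0) hc2i (hdG 0) hdc2) ?_
    refine hdmul _ _ h3 (pow_mem hb 2) hd3 ?_
    rw [pow_two]
    exact hdmul _ _ hb hb hdb hdb
  rintro (l | l | s)
  · change δ (u l.1 / u i) ∈ A
    rw [U_eq hr hz hu hP hc, map_add]
    exact add_mem (hdE _) (hdmul _ _ hβ (hcE' _) hdβ (hdE' _))
  · change δ (plu u v i l.1 / plu u v i j) ∈ A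
    rw [← cellE'_chart hr hz hu hP hc]
    exact hdE' _
  · fin_cases s
    · exact hdb
    · exact hda

/-- T2'. -/
theorem mem_vSet_of_tch (h : IsGenT k z u v a0) (hA : IsDVRof k A) (hij : i ≠ j)
    (ht : TCh k u v a0 A i j) : A ∈ VSet k z := by
  obtain ⟨m, hm⟩ := exists_unit_g hA hij ht
  exact ⟨hA, i, j, m, hij, h.cell_ne hij m, etale_cell_of_tch h hA hij ht hm⟩

end MP9a7843
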