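import Pool.Agent.Lib.MP_9a7843_ag_T.CellT
import Pool.Agent.Lib.MP_9a7843_ag_T.Swap
import Pool.Agent.Lib.MP_9a7843_ag_D.Ord

/-!
# MP_9a7843_ag, block T, module TwoA: a discrete valuation ring of the function field of `T` which
is
etale over a cell of `X` is etale over a chart of `T`
-/

noncomputable section

open MvPolynomial Classical

namespace MP9a7843

variable {k : Type*} [Field k] [CharZero k] {K : Type*} [Field K] [Algebra k K] {z : Idx → K}
  {u v : Fin 10 → K} {a0 : K} {i j : Fin 10} {m : Fin 4} {A : ValuationSubring K}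

omit [CharZero k] in
private theorem cG_mem (hc : z (cellIdx i j m) ≠ 0) (he : EtaleAt k A (cellCoord z i j m))
    (m' : Fin 4) : cellG z i j m m' ∈ A := by
  by_cases h : m' = m
  · rw [h, cellG_self hc]
    exact A.one_mem
  · exact he.1 (Sum.inr (Sum.inr ⟨m', h⟩))

omit [CharZero k] in
private theorem cE_mem (hr : Rel z) (hc : z (cellIdx i j m) ≠ 0)
    (he : EtaleAt k A (cellCoord z i j m)) (l : Fin 10) : cellE z i j m l ∈ A := by
  by_cases h1 : l = i
  · rw [h1, cellE_left hc]
    exact A.one_mem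
  by_cases h2 : l = j
  · rw [h2, cellE_right hr]
    exact A.zero_mem
  exact he.1 (Sum.inl ⟨l, h1, h2⟩)

omit [CharZero k] in
private theorem cE'_mem (hr : Rel z) (hc : z (cellIdx i j m) ≠ 0)
    (he : EtaleAt k A (cellCoord z i j m)) (l : Fin 10) : cellE' z i j m l ∈ A := by
  by_cases h1 : l = i
  · rw [h1, cellE'_left hr]
    exact A.zero_mem
  by_cases h2 : l = j
  · rw [h2, cellE'_right hc]
    exact A.one_mem
  exact he.1 (Sum.inr (Sum.inl ⟨l, h1, h2⟩))

/-- The derivative at the root is a unit.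

Proof.  Write `G = cellG z i j m`, `β = u_j / u_i`.  All `G m'`, `β` are in `A`.  Let `δ` be the
derivation of `K` with `δ(G 3) = 1` if `m ≠ 3`, and `δ(G 2) = 1` if `m = 3`, which kills the other
coordinates of the cell (`exists_der`, `cell_indep`, `cell_alg`).  `A` is etale over the cell, so
`δ β ∈ A`.  `der_root` gives `3 c2 δ(β) = 1` if `m ≠ 3` and `3 c2 δ(β) = -3 β` if `m = 3`; in the
second case `β` is a unit since `root_eq` with `G 3 = 1` gives
`β (G_0 β^2 - 3 G_1 β + 3 G_2) = 1`. -/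
theorem c2_unit (h : IsGenT k z u v a0) (hA : IsDVRof k A) (hij : i ≠ j)
    (he : EtaleAt k A (cellCoord z i j m)) (hβ : u j / u i ∈ A) :
    (cellG z i j m 0 * (u j / u i) ^ 2 - 2 * cellG z i j m 1 * (u j / u i) +
      cellG z i j m 2)⁻¹ ∈ A := by
  have hu : u i ≠ 0 := h.u_ne i
  have hP : plu u v i j ≠ 0 := h.plu_ne hij
  have hc : z (cellIdx i j m) ≠ 0 := h.cell_ne hij m
  have hK : CharZero K := charZero_of_injective_algebraMap (algebraMap k K).injective
  obtain ⟨r, hr, hz⟩ := h.eq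
  have h3 : (3 : K) ≠ 0 := by norm_num
  obtain ⟨p, hpm, hp⟩ : ∃ p : Fin 4, p ≠ m ∧ ((p = 3) ∨ (m = 3 ∧ p = 2)) := by
    by_cases hm : m = 3
    · exact ⟨2, by rw [hm]; decide, Or.inr ⟨hm, rfl⟩⟩
    · exact ⟨3, fun h' => hm h'.symm, Or.inl rfl⟩
  obtain ⟨δ, hδ⟩ := exists_der (h.cell_indep hij m) (h.cell_alg hij m)
    (fun x => if x = Sum.inr (Sum.inr ⟨p, hpm⟩) then 1 else 0)
  have hδA : ∀ a ∈ A, δ a ∈ A := by
    refine he.2 δ fun x => ?_
    rw [hδ]
    split_ifs
    · exact A.one_mem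
    · exact A.zero_mem
  have hG : ∀ m', δ (cellG z i j m m') = if m' = p then 1 else 0 := by
    intro m'
    by_cases hm : m' = m
    · rw [hm, cellG_self hc, if_neg hpm.symm]
      exact δ.map_one_eq_zero
    · have h4 := hδ (Sum.inr (Sum.inr ⟨m', hm⟩))
      have h5 : cellCoord z i j m (Sum.inr (Sum.inr ⟨m', hm⟩)) = cellG z i j m m' := rfl
      rw [h5] at h4
      rw [h4]
      by_cases hmp : m' = p
      · subst hmp
        rw [if_pos rfl, if_pos rfl]
      · rw [if_neg hmp, if_neg]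
        intro h6
        apply hmp
        simpa using h6
  have hβ' := hδA _ hβ
  have key := der_root hr hz hu hP hc δ
  rw [hG, hG, hG, hG] at key
  have hGA := cG_mem hc he
  rcases hp with rfl | ⟨rfl, rfl⟩
  · rw [if_neg (by decide), if_neg (by decide), if_neg (by decide), if_pos rfl] at key
    have h4 : (cellG z i j m 0 * (u j / u i) ^ 2 - 2 * cellG z i j m 1 * (u j / u i) +
        cellG z i j m 2)⁻¹ = 3 * δ (u j / u i) :=
      inv_eq_of_mul_eq_one_right (by linear_combination key)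
    rw [h4]
    exact mul_mem (ofNat_mem A 3) hβ'
  · rw [if_neg (by decide), if_neg (by decide), if_pos rfl, if_neg (by decide)] at key
    have hroot := root_eq hr hz hu hP hc
    rw [cellG_self hc] at hroot
    have hw : u j / u i * (cellG z i j 3 0 * (u j / u i) ^ 2 - 3 * cellG z i j 3 1 * (u j / u i) +
        3 * cellG z i j 3 2) = 1 := by linear_combination -hroot
    have hcd : (cellG z i j 3 0 * (u j / u i) ^ 2 - 2 * cellG z i j 3 1 * (u j / u i) +
        cellG z i j 3 2) * δ (u j / u i) = -(u j / u i) := by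
      refine mul_left_cancel₀ h3 ?_
      linear_combination key
    have h4 : (cellG z i j 3 0 * (u j / u i) ^ 2 - 2 * cellG z i j 3 1 * (u j / u i) +
        cellG z i j 3 2)⁻¹ = -(δ (u j / u i) *
        (cellG z i j 3 0 * (u j / u i) ^ 2 - 3 * cellG z i j 3 1 * (u j / u i) +
        3 * cellG z i j 3 2)) := by
      refine inv_eq_of_mul_eq_one_right ?_
      generalize (cellG z i j 3 0 * (u j / u i) ^ 2 - 2 * cellG z i j 3 1 * (u j / u i) +
        cellG z i j 3 2) = c2 at *
      generalize (cellG z i j 3 0 * (u j / u i) ^ 2 - 3 * cellG z i j 3 1 * (u j / u i) +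
        3 * cellG z i j 3 2) = w at *
      linear_combination hw - w * hcd
    rw [h4]
    exact neg_mem (mul_mem hβ' (add_mem (sub_mem (mul_mem (hGA 0) (pow_mem hβ 2))
      (mul_mem (mul_mem (ofNat_mem A 3) (hGA 1)) hβ)) (mul_mem (ofNat_mem A 3) (hGA 2))))

/-- T2, first case.

Proof.  By `c2_unit`, `b_eq`, `a_eq`, `U_eq`, `cellE'_chart` the chart coordinates are in `A`.  By
`cellE_chart`, `cellE'_chart`, `cellG_chart` the cell coordinates are polynomials in the chart
coordinates, divided by `g_m = aeval _ (gT k i j m)`, whose inverse is `c2 ∈ A` (`c2_eq`):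
`EtaleAt.transfer`. -/
theorem tch_of_cell (h : IsGenT k z u v a0) (hA : IsDVRof k A) (hij : i ≠ j)
    (he : EtaleAt k A (cellCoord z i j m)) (hβ : u j / u i ∈ A) : TCh k u v a0 A i j := by
  have hu : u i ≠ 0 := h.u_ne i
  have hP : plu u v i j ≠ 0 := h.plu_ne hij
  have hc : z (cellIdx i j m) ≠ 0 := h.cell_ne hij m
  have hK : CharZero K := charZero_of_injective_algebraMap (algebraMap k K).injective
  have hinv := c2_unit h hA hij he hβ
  have hrel := h.rel
  obtain ⟨r, hr, hz⟩ := h.eq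
  have hG := cG_mem hc he
  have hE := cE_mem hrel hc he
  have hE' := cE'_mem hrel hc he
  have h2 : ((2 : K))⁻¹ ∈ A := by
    have h3 := hA.1 (2⁻¹ : k)
    rwa [map_inv₀, map_ofNat] at h3
  have hb : v i * u i / plu u v i j ∈ A := by
    rw [b_eq hr hz hu hP hc two_ne_zero, div_eq_mul_inv, mul_inv]
    exact mul_mem (sub_mem (hG 1) (mul_mem (hG 0) hβ)) (mul_mem h2 hinv)
  refine ⟨hu, hP, EtaleAt.transfer hA.1 he ?_ ?_⟩
  · rintro (l | l | l)
    · change u l.1 / u i ∈ A
      rw [U_eq hr hz hu hP hc]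
      exact add_mem (hE _) (mul_mem hβ (hE' _))
    · change plu u v i l.1 / plu u v i j ∈ A
      rw [← cellE'_chart hr hz hu hP hc]
      exact hE' _
    · fin_cases l
      · exact hb
      · change a0 * u i ^ 4 / plu u v i j ^ 2 ∈ A
        rw [a_eq hr hz hu hP hc, div_eq_mul_inv]
        exact sub_mem (mul_mem (hG 0) hinv) (mul_mem (ofNat_mem A 3) (pow_mem hb 2))
  · rintro (l | l | l)
    · refine ⟨uT k i j l.1 - uT k i j j * pT k i j l.1, 1, ?_, ?_⟩
      · rw [map_one, inv_one]
        exact A.one_mem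
      · change cellE z i j m l.1 = _
        rw [cellE_chart hr hz hu hP hc, map_sub, map_mul, aeval_uT hu, aeval_uT hu,
          aeval_pT hP, map_one, div_one]
    · refine ⟨pT k i j l.1, 1, ?_, ?_⟩
      · rw [map_one, inv_one]
        exact A.one_mem
      · change cellE' z i j m l.1 = _
        rw [cellE'_chart hr hz hu hP hc, aeval_pT hP, map_one, div_one]
    · refine ⟨gT k i j l.1, gT k i j m, ?_, cellG_chart hr hz hu hP hc l.1⟩
      rw [← c2_eq hr hz hu hP hc]
      exact add_mem (sub_mem (mul_mem (hG 0) (pow_mem hβ 2))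
        (mul_mem (mul_mem (ofNat_mem A 2) (hG 1)) hβ)) (hG 2)

/-- T2.  `u_j / u_i ∈ A` or `u_i / u_j ∈ A`; in the second case exchange `i` and `j`
(`etaleAt_swap`). -/
theorem exists_tch (h : IsGenT k z u v a0) (hA : A ∈ VSet k z) :
    ∃ i j : Fin 10, i ≠ j ∧ TCh k u v a0 A i j := by
  obtain ⟨hdvr, i, j, m, hij, -, he⟩ := hA
  rcases A.mem_or_inv_mem (u j / u i) with h1 | h1
  · exact ⟨i, j, hij, tch_of_cell h hdvr hij he h1⟩
  · rw [inv_div] at h1
    exact ⟨j, i, hij.symm, tch_of_cell h hdvr hij.symm (etaleAt_swap h.rel he) h1⟩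

end MP9a7843
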